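import Mathlib
import Pool.Agent.R755.KF.G1

set_option autoImplicit false

open MeasureTheory Set Metric Filter Topology

namespace Pool.Agent.T6.H44.Hardy

/-- Euclidean space -/
abbrev E (n : ℕ) : Type := EuclideanSpace ℝ (Fin n)

/-- the weight `(1 + |x|²) ^ a` -/
noncomputable def wt {n : ℕ} (a : ℝ) (x : E n) : ℝ := (1 + ‖x‖ ^ 2) ^ a

theorem base_pos {n : ℕ} (x : E n) : 0 < 1 + ‖x‖ ^ 2 := by positivity

theorem wt_pos {n : ℕ} (a : ℝ) (x : E n) : 0 < wt a x := Real.rpow_pos_of_pos (base_pos x) a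

theorem wt_cont {n : ℕ} (a : ℝ) : Continuous (wt (n := n) a) := by
  unfold wt
  exact Continuous.rpow_const (by fun_prop) fun x => Or.inl (base_pos x).ne'

/-- Gaussian Poincaré inequality for mean zero functions -/
theorem gauss {n : ℕ} {v : E n → ℝ} (hv : ContDiff ℝ 1 v) (hc : HasCompactSupport v) {s : ℝ}
    (hs : 0 < s) (h0 : ∫ x, Real.exp (-(s * ‖x‖ ^ 2)) * v x = 0) :
    2 * s * ∫ x, Real.exp (-(s * ‖x‖ ^ 2)) * v x ^ 2 ≤
      ∫ x, Real.exp (-(s * ‖x‖ ^ 2)) * ‖fderiv ℝ v x‖ ^ 2 := by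
  obtain ⟨B1, hB1⟩ := hc.exists_bound_of_continuous hv.continuous
  obtain ⟨B2, hB2⟩ := (hc.fderiv (𝕜 := ℝ)).exists_bound_of_continuous
    (hv.continuous_fderiv one_ne_zero)
  have hBL : Pool.Agent.R755.KF.BL (max B1 B2) v :=
    ⟨hv, fun y => (hB1 y).trans (le_max_left _ _), fun y => (hB2 y).trans (le_max_right _ _)⟩
  have hh : 0 < 1 / (2 * s) := by positivity
  have key := Pool.Agent.R755.KF.gp n (1 / (2 * s)) _ v hh hBL 0
  obtain ⟨gp, g1, g2, g3⟩ := Pool.Agent.H888R2.KT.gc_pos (κ := Fin n) (1 / (2 * s)) hh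
  have e : ∀ φ : E n → ℝ, Pool.Agent.H888R2.KT.gs (1 / (2 * s)) φ 0 =
      (∫ x, Real.exp (-(s * ‖x‖ ^ 2)) * φ x) / Pool.Agent.H888R2.KT.gc (Fin n) (1 / (2 * s)) := by
    intro φ
    unfold Pool.Agent.H888R2.KT.gs
    congr 1
    refine integral_congr_ae (Filter.Eventually.of_forall fun y => ?_)
    simp only [zero_sub, norm_neg]
    rw [mul_comm]
    congr 3
    field_simp
  rw [e, e, e, h0, zero_div] at key
  have h2 : (0:ℝ) ^ 2 = 0 := by norm_num
  rw [h2, sub_zero, mul_div_assoc', div_le_div_iff_of_pos_right gp] at key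
  have := mul_le_mul_of_nonneg_left key (show 0 ≤ 2 * s by positivity)
  have e2 : 2 * s * (1 / (2 * s) * ∫ x, Real.exp (-(s * ‖x‖ ^ 2)) * ‖fderiv ℝ v x‖ ^ 2) =
      ∫ x, Real.exp (-(s * ‖x‖ ^ 2)) * ‖fderiv ℝ v x‖ ^ 2 := by
    field_simp
  rw [e2] at this
  exact this

theorem gam {n : ℕ} {a : ℝ} (ha : a < 0) (x : E n) :
    ∫ s in Ioi (0 : ℝ), s ^ (-a - 1) * Real.exp (-s) * Real.exp (-(s * ‖x‖ ^ 2)) =
      Real.Gamma (-a) * wt a x := by
  have h := Real.integral_rpow_mul_exp_neg_mul_Ioi (a := -a) (r := 1 + ‖x‖ ^ 2) (by linarith)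
    (base_pos x)
  have e1 : (1 / (1 + ‖x‖ ^ 2)) ^ (-a) = wt a x := by
    unfold wt
    rw [one_div, Real.inv_rpow (base_pos x).le, Real.rpow_neg (base_pos x).le, inv_inv]
  rw [e1] at h
  rw [mul_comm, ← h]
  refine setIntegral_congr_fun measurableSet_Ioi fun s _ => ?_
  show s ^ (-a - 1) * Real.exp (-s) * Real.exp (-(s * ‖x‖ ^ 2)) = _
  rw [mul_assoc, ← Real.exp_add]
  congr 2
  ring

theorem gam_int {b : ℝ} (hb : 0 < b) :
    IntegrableOn (fun s : ℝ => s ^ (b - 1) * Real.exp (-s)) (Ioi 0) := by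
  have := Real.GammaIntegral_convergent hb
  refine this.congr_fun (fun s _ => ?_) measurableSet_Ioi
  simp only
  ring

/-- mixtures of Gaussians -/
theorem mixture {n : ℕ} {a : ℝ} (ha : a < 0) {g : E n → ℝ} (hg : Continuous g)
    (hc : HasCompactSupport g) :
    IntegrableOn (fun s : ℝ => s ^ (-a - 1) * Real.exp (-s) *
      ∫ x, Real.exp (-(s * ‖x‖ ^ 2)) * g x) (Ioi 0) ∧
    ∫ s in Ioi (0 : ℝ), s ^ (-a - 1) * Real.exp (-s) * ∫ x, Real.exp (-(s * ‖x‖ ^ 2)) * g x =
      Real.Gamma (-a) * ∫ x, wt a x * g x := by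
  have hgi : Integrable g := hg.integrable_of_hasCompactSupport hc
  have h1 : Integrable (fun p : ℝ × E n => (p.1 ^ (-a - 1) * Real.exp (-p.1)) * g p.2)
      ((volume.restrict (Ioi 0)).prod volume) :=
    Integrable.mul_prod (gam_int (b := -a) (by linarith)) hgi
  have h2 : Integrable (fun p : ℝ × E n => (p.1 ^ (-a - 1) * Real.exp (-p.1)) *
      (Real.exp (-(p.1 * ‖p.2‖ ^ 2)) * g p.2)) ((volume.restrict (Ioi 0)).prod volume) := by
    refine h1.norm.mono' ?_ ?_
    · refine Measurable.aestronglyMeasurable ?_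
      have : Measurable g := hg.measurable
      fun_prop
    · have : ∀ᵐ p : ℝ × E n ∂((volume.restrict (Ioi 0)).prod volume), 0 < p.1 := by
        have h := (Measure.quasiMeasurePreserving_fst (μ := volume.restrict (Ioi (0:ℝ)))
          (ν := (volume : Measure (E n)))).ae (ae_restrict_mem measurableSet_Ioi)
        exact h
      filter_upwards [this] with p hp
      rw [norm_mul, norm_mul (Real.exp (-(p.1 * ‖p.2‖ ^ 2))),
        norm_mul (p.1 ^ (-a - 1) * Real.exp (-p.1)) (g p.2)]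
      refine mul_le_mul_of_nonneg_left ?_ (norm_nonneg _)
      refine mul_le_of_le_one_left (norm_nonneg _) ?_
      rw [Real.norm_of_nonneg (Real.exp_pos _).le, Real.exp_le_one_iff]
      have : 0 ≤ p.1 * ‖p.2‖ ^ 2 := by positivity
      linarith
  constructor
  · have := h2.integral_prod_left
    refine this.congr (Filter.Eventually.of_forall fun s => ?_)
    simp only
    rw [integral_const_mul]
  · have h3 := integral_integral_swap (f := fun (s : ℝ) (x : E n) =>
      (s ^ (-a - 1) * Real.exp (-s)) * (Real.exp (-(s * ‖x‖ ^ 2)) * g x)) h2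
    simp only [integral_const_mul] at h3
    rw [h3, ← integral_const_mul]
    refine integral_congr_ae (Filter.Eventually.of_forall fun x => ?_)
    simp only
    rw [← mul_assoc, ← gam ha x, ← integral_mul_const]
    refine setIntegral_congr_fun measurableSet_Ioi fun s _ => ?_
    ring

/-- Functions with vanishing Gaussian means: the weighted inequality with the constant `-2a`. -/
theorem mix {n : ℕ} {a : ℝ} (ha : a < 0) {v : E n → ℝ} (hv : ContDiff ℝ 1 v)
    (hc : HasCompactSupport v) (h0 : ∀ s : ℝ, 0 < s → ∫ x, Real.exp (-(s * ‖x‖ ^ 2)) * v x = 0) :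
    -2 * a * ∫ x, wt (a - 1) x * v x ^ 2 ≤ ∫ x, wt a x * ‖fderiv ℝ v x‖ ^ 2 := by
  have hG : 0 < Real.Gamma (-a) := Real.Gamma_pos_of_pos (by linarith)
  have c1 : HasCompactSupport fun x => ‖fderiv ℝ v x‖ ^ 2 := by
    have := (hc.fderiv (𝕜 := ℝ)).norm
    exact this.comp_left (g := fun t : ℝ => t ^ 2) (by norm_num)
  have c2 : HasCompactSupport fun x => v x ^ 2 := hc.comp_left (g := fun t : ℝ => t ^ 2) (by norm_num)
  obtain ⟨i1, m1⟩ := mixture ha (g := fun x => ‖fderiv ℝ v x‖ ^ 2)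
    ((hv.continuous_fderiv one_ne_zero).norm.pow 2) c1
  obtain ⟨i2, m2⟩ := mixture (a := a - 1) (by linarith) (g := fun x => v x ^ 2)
    (hv.continuous.pow 2) c2
  have e : Real.Gamma (-(a - 1)) = -a * Real.Gamma (-a) := by
    rw [show -(a - 1) = -a + 1 by ring, Real.Gamma_add_one (by linarith)]
  have key : 2 * (Real.Gamma (-(a - 1)) * ∫ x, wt (a - 1) x * v x ^ 2) ≤
      Real.Gamma (-a) * ∫ x, wt a x * ‖fderiv ℝ v x‖ ^ 2 := by
    rw [← m1, ← m2, ← integral_const_mul]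
    refine setIntegral_mono_on (i2.const_mul 2) i1 measurableSet_Ioi fun s hs => ?_
    have hs' : 0 < s := hs
    have hg := gauss hv hc hs' (h0 s hs')
    have hp : 0 ≤ s ^ (-a - 1) * Real.exp (-s) := by positivity
    have := mul_le_mul_of_nonneg_left hg hp
    refine le_trans (le_of_eq ?_) this
    have e3 : s ^ (-(a - 1) - 1) = s ^ (-a - 1) * s := by
      rw [← Real.rpow_add_one hs'.ne']
      congr 1
      ring
    rw [e3]
    ring
  rw [e] at key
  have : Real.Gamma (-a) * (-2 * a * ∫ x, wt (a - 1) x * v x ^ 2) ≤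
      Real.Gamma (-a) * ∫ x, wt a x * ‖fderiv ℝ v x‖ ^ 2 := by
    refine le_trans (le_of_eq ?_) key
    ring
  exact le_of_mul_le_mul_left this hG

end Pool.Agent.T6.H44.Hardy
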