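import Mathlib
import Pool.Agent.T6.H44.Hardy.Mix

set_option autoImplicit false

open MeasureTheory Set Metric Filter Topology

namespace Pool.Agent.T6.H44.Hardy

/-- derivative of the weight -/
theorem wt_hasFDerivAt {n : ℕ} (a : ℝ) (x : E n) :
    HasFDerivAt (wt (n := n) a) ((2 * a * wt (a - 1) x) • innerSL ℝ x) x := by
  have h1 : HasFDerivAt (fun y : E n => 1 + ‖y‖ ^ 2) ((2 : ℝ) • innerSL ℝ x) x := by
    have := ((hasStrictFDerivAt_norm_sq x).hasFDerivAt).const_add 1
    refine this.congr_fderiv ?_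
    ext y
    simp
  have h2 := h1.rpow_const (p := a) (Or.inl (base_pos x).ne')
  refine h2.congr_fderiv ?_
  rw [smul_smul]
  congr 1
  unfold wt
  ring

theorem wt_contDiff {n : ℕ} (a : ℝ) {m : WithTop ℕ∞} : ContDiff ℝ m (wt (n := n) a) := by
  unfold wt
  refine ContDiff.rpow_const_of_ne ?_ fun x => (base_pos x).ne'
  exact contDiff_const.add (contDiff_norm_sq ℝ)

theorem wt_succ {n : ℕ} (a : ℝ) (x : E n) : wt a x = (1 + ‖x‖ ^ 2) * wt (a - 1) x := by
  unfold wt
  rw [Real.rpow_sub_one (base_pos x).ne']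
  field_simp

theorem sq_wt {n : ℕ} (a : ℝ) (x : E n) : ‖x‖ ^ 2 * wt (a - 1) x = wt a x - wt (a - 1) x := by
  rw [wt_succ a x]; ring

theorem wt_add {n : ℕ} (a b : ℝ) (x : E n) : wt a x * wt b x = wt (a + b) x := by
  unfold wt
  rw [Real.rpow_add (base_pos x)]

theorem lin2 {X : Type} [MeasurableSpace X] {μ : Measure X} {f g : X → ℝ} (hf : Integrable f μ)
    (hg : Integrable g μ) (a b : ℝ) :
    ∫ x, (a * f x + b * g x) ∂μ = a * ∫ x, f x ∂μ + b * ∫ x, g x ∂μ := by
  rw [integral_add (hf.const_mul a) (hg.const_mul b), integral_const_mul, integral_const_mul]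

/-- the coordinate vectors -/
noncomputable def ee {n : ℕ} (i : Fin n) : E n := EuclideanSpace.single i 1

theorem sum_ee {n : ℕ} (x : E n) : x = ∑ i, x i • (ee i : E n) := by
  ext j
  simp [ee, Finset.sum_apply, Pi.single_apply]

/-- partial integration of a compactly supported function -/
theorem ibp {n : ℕ} {g : E n → ℝ} (hg : ContDiff ℝ 1 g) (hc : HasCompactSupport g) (v : E n) :
    ∫ x, fderiv ℝ g x v = 0 := by
  have h1 : Continuous fun x => fderiv ℝ g x v :=
    (hg.continuous_fderiv one_ne_zero).clm_apply continuous_const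
  have h2 : HasCompactSupport fun x => fderiv ℝ g x v := hc.fderiv_apply (𝕜 := ℝ) v
  have key := integral_mul_fderiv_eq_neg_fderiv_mul_of_integrable (μ := (volume : Measure (E n)))
    (f := fun _ => (1 : ℝ)) (g := g) (v := v) (by simp) (by
      simpa using h1.integrable_of_hasCompactSupport h2) (by
      simpa using hg.continuous.integrable_of_hasCompactSupport hc)
    (fun x _ => differentiableAt_const _) (fun x _ => hg.differentiable one_ne_zero x)
  simpa using key

/-- Euler's identity: `∫ x·∇g = - n ∫ g` -/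
theorem euler {n : ℕ} {g : E n → ℝ} (hg : ContDiff ℝ 1 g) (hc : HasCompactSupport g) :
    ∫ x, fderiv ℝ g x x = -(n : ℝ) * ∫ x, g x := by
  have h0 : ∀ i : Fin n, ∫ x, x i * fderiv ℝ g x (ee i) = -∫ x, g x := by
    intro i
    have hp : ContDiff ℝ 1 fun x : E n => x i * g x := by
      have : ContDiff ℝ 1 fun x : E n => x i := (EuclideanSpace.proj i : E n →L[ℝ] ℝ).contDiff
      exact this.mul hg
    have hpc : HasCompactSupport fun x : E n => x i * g x := hc.mul_left
    have h1 := ibp hp hpc (ee i)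
    have h2 : ∀ x : E n, fderiv ℝ (fun x : E n => x i * g x) x (ee i) =
        x i * fderiv ℝ g x (ee i) + g x := by
      intro x
      have a1 : HasFDerivAt (fun x : E n => x i) (EuclideanSpace.proj i : E n →L[ℝ] ℝ) x :=
        (EuclideanSpace.proj i : E n →L[ℝ] ℝ).hasFDerivAt
      have a2 : HasFDerivAt g (fderiv ℝ g x) x := (hg.differentiable one_ne_zero x).hasFDerivAt
      have a3 : HasFDerivAt (fun x : E n => x i * g x) _ x := a1.mul a2
      rw [a3.fderiv]
      simp [ee]
    simp only [h2] at h1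
    rw [integral_add] at h1
    · linarith
    · have c1 : Continuous fun x : E n => x i * fderiv ℝ g x (ee i) :=
        (EuclideanSpace.proj i : E n →L[ℝ] ℝ).continuous.mul
          ((hg.continuous_fderiv one_ne_zero).clm_apply continuous_const)
      have c2 : HasCompactSupport fun x : E n => x i * fderiv ℝ g x (ee i) :=
        (hc.fderiv_apply (𝕜 := ℝ) (ee i)).mul_left
      exact c1.integrable_of_hasCompactSupport c2
    · exact hg.continuous.integrable_of_hasCompactSupport hc
  have h3 : ∀ x : E n, fderiv ℝ g x x = ∑ i, x i * fderiv ℝ g x (ee i) := by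
    intro x
    conv_lhs => rw [sum_ee x]
    rw [map_sum]
    refine Finset.sum_congr rfl fun i _ => ?_
    rw [map_smul, smul_eq_mul]
    conv_rhs => rw [sum_ee x]
    simp only [← sum_ee x]
  simp only [h3]
  rw [integral_finsetSum]
  · simp only [h0]
    simp
  · intro i _
    have c1 : Continuous fun x : E n => x i * fderiv ℝ g x (ee i) :=
      (EuclideanSpace.proj i : E n →L[ℝ] ℝ).continuous.mul
        ((hg.continuous_fderiv one_ne_zero).clm_apply continuous_const)
    have c2 : HasCompactSupport fun x : E n => x i * fderiv ℝ g x (ee i) :=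
      (hc.fderiv_apply (𝕜 := ℝ) (ee i)).mul_left
    exact c1.integrable_of_hasCompactSupport c2

/-- weighted version of Euler's identity -/
theorem weuler {n : ℕ} {g : E n → ℝ} (hg : ContDiff ℝ 1 g) (hc : HasCompactSupport g) (a : ℝ) :
    ∫ x, wt a x * fderiv ℝ g x x =
      -∫ x, g x * ((n : ℝ) * wt a x + 2 * a * (‖x‖ ^ 2 * wt (a - 1) x)) := by
  have hp : ContDiff ℝ 1 fun x : E n => wt a x * g x := (wt_contDiff a).mul hg
  have hpc : HasCompactSupport fun x : E n => wt a x * g x := hc.mul_left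
  have h1 := euler hp hpc
  have h2 : ∀ x : E n, fderiv ℝ (fun x : E n => wt a x * g x) x x =
      wt a x * fderiv ℝ g x x + g x * (2 * a * (‖x‖ ^ 2 * wt (a - 1) x)) := by
    intro x
    have a2 : HasFDerivAt g (fderiv ℝ g x) x := (hg.differentiable one_ne_zero x).hasFDerivAt
    have a3 : HasFDerivAt (fun x : E n => wt a x * g x) _ x := (wt_hasFDerivAt a x).mul a2
    rw [a3.fderiv]
    have e : innerSL ℝ x x = ‖x‖ ^ 2 := real_inner_self_eq_norm_sq x
    simp only [ContinuousLinearMap.add_apply, ContinuousLinearMap.smul_apply, e, smul_eq_mul]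
    ring
  simp only [h2] at h1
  have c1 : Integrable fun x : E n => wt a x * fderiv ℝ g x x := by
    have c1 : Continuous fun x : E n => wt a x * fderiv ℝ g x x :=
      (wt_cont a).mul ((hg.continuous_fderiv one_ne_zero).clm_apply continuous_id)
    have c2 : HasCompactSupport fun x : E n => wt a x * fderiv ℝ g x x := by
      refine HasCompactSupport.mul_left ?_
      refine (hc.fderiv (𝕜 := ℝ)).mono ?_
      intro x hx
      rw [Function.mem_support] at hx ⊢
      intro h
      exact hx (by rw [h]; rfl)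
    exact c1.integrable_of_hasCompactSupport c2
  have c3 : Integrable fun x : E n => g x * (2 * a * (‖x‖ ^ 2 * wt (a - 1) x)) := by
    refine Continuous.integrable_of_hasCompactSupport ?_ hc.mul_right
    have := hg.continuous
    have := wt_cont (n := n) (a - 1)
    fun_prop
  have c4 : Integrable fun x : E n => g x * wt a x := by
    refine Continuous.integrable_of_hasCompactSupport ?_ hc.mul_right
    exact hg.continuous.mul (wt_cont a)
  rw [integral_add c1 c3] at h1
  have c5 : Integrable fun x : E n => wt a x * g x :=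
    c4.congr (Filter.Eventually.of_forall fun x => mul_comm _ _)
  have h4 : ∫ x, g x * ((n : ℝ) * wt a x + 2 * a * (‖x‖ ^ 2 * wt (a - 1) x)) =
      (n : ℝ) * (∫ x, wt a x * g x) + 1 * ∫ x, g x * (2 * a * (‖x‖ ^ 2 * wt (a - 1) x)) := by
    rw [← lin2 c5 c3]
    refine integral_congr_ae (Filter.Eventually.of_forall fun x => ?_)
    show g x * ((n : ℝ) * wt a x + 2 * a * (‖x‖ ^ 2 * wt (a - 1) x)) = _
    ring
  rw [h4]
  linarith

theorem young {n : ℕ} (L : E n →L[ℝ] ℝ) (c : ℝ) (x : E n) :
    -(2 * c * L x) - c ^ 2 * ‖x‖ ^ 2 ≤ ‖L‖ ^ 2 := by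
  have h1 := L.le_opNorm x
  rw [Real.norm_eq_abs] at h1
  have h2 : -(c * L x) ≤ |c| * (‖L‖ * ‖x‖) := by
    calc -(c * L x) ≤ |c * L x| := neg_le_abs _
      _ = |c| * |L x| := abs_mul _ _
      _ ≤ _ := by gcongr
  have h3 : |c| ^ 2 = c ^ 2 := sq_abs c
  nlinarith [sq_nonneg (‖L‖ - |c| * ‖x‖)]

/-- integrability of the two quadratic forms -/
theorem int_D {n : ℕ} {u : E n → ℝ} (hu : ContDiff ℝ 1 u) (hc : HasCompactSupport u) (a : ℝ) :
    Integrable fun x => wt a x * ‖fderiv ℝ u x‖ ^ 2 := by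
  refine Continuous.integrable_of_hasCompactSupport
    ((wt_cont a).mul ((hu.continuous_fderiv one_ne_zero).norm.pow 2)) ?_
  exact ((hc.fderiv (𝕜 := ℝ)).norm.comp_left (g := fun t : ℝ => t ^ 2) (by norm_num)).mul_left

theorem int_N {n : ℕ} {u : E n → ℝ} (hu : Continuous u) (hc : HasCompactSupport u) (a : ℝ) :
    Integrable fun x => wt a x * u x ^ 2 := by
  refine Continuous.integrable_of_hasCompactSupport ((wt_cont a).mul (hu.pow 2)) ?_
  exact (hc.comp_left (g := fun t : ℝ => t ^ 2) (by norm_num)).mul_left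

/-- The lower bound from the positive function `(1 + |x|²) ^ (-β)`. -/
theorem super {n : ℕ} {u : E n → ℝ} (hu : ContDiff ℝ 1 u) (hc : HasCompactSupport u) (α β : ℝ) :
    (2 * β * (n + 2 * (α - 1 - β))) * (∫ x, wt (α - 1) x * u x ^ 2) -
      4 * β * (α - 1 - β) * (∫ x, wt (α - 2) x * u x ^ 2) ≤
      ∫ x, wt α x * ‖fderiv ℝ u x‖ ^ 2 := by
  have hg : ContDiff ℝ 1 fun x => u x ^ 2 := hu.pow 2
  have hgc : HasCompactSupport fun x => u x ^ 2 := hc.comp_left (g := fun t : ℝ => t ^ 2) (by norm_num)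
  have hw := weuler hg hgc (α - 1)
  have e1 : α - 1 - 1 = α - 2 := by ring
  rw [e1] at hw
  have hd : ∀ x, fderiv ℝ (fun x => u x ^ 2) x x = 2 * u x * fderiv ℝ u x x := by
    intro x
    have a2 : HasFDerivAt u (fderiv ℝ u x) x := (hu.differentiable one_ne_zero x).hasFDerivAt
    have := (a2.pow 2).fderiv
    rw [this]
    simp
  have hd1 : Continuous (fderiv ℝ u) := hu.continuous_fderiv one_ne_zero
  have hcu := hu.continuous
  have c1 : Integrable fun x : E n => wt (α - 1) x * (2 * u x * fderiv ℝ u x x) := by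
    refine Continuous.integrable_of_hasCompactSupport ?_ ?_
    · exact (wt_cont _).mul ((continuous_const.mul hcu).mul (hd1.clm_apply continuous_id))
    · refine HasCompactSupport.mul_left (HasCompactSupport.mul_right ?_)
      exact hc.mul_left
  have c2 := int_D hu hc α
  have c3 := int_N hcu hc (α - 1)
  have c4 := int_N hcu hc (α - 2)
  -- pointwise
  have hpt : ∀ x, -(2 * β) * (wt (α - 1) x * (2 * u x * fderiv ℝ u x x)) +
      (-(4 * β ^ 2)) * (wt (α - 1) x * u x ^ 2 - wt (α - 2) x * u x ^ 2) ≤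
      wt α x * ‖fderiv ℝ u x‖ ^ 2 := by
    intro x
    have hb := base_pos x
    have h1 := young (fderiv ℝ u x) (2 * β * u x / (1 + ‖x‖ ^ 2)) x
    have h2 := mul_le_mul_of_nonneg_left h1 (wt_pos α x).le
    refine le_trans (le_of_eq ?_) h2
    rw [wt_succ α x, wt_succ (α - 1) x, show α - 1 - 1 = α - 2 by ring]
    field_simp
    ring
  have c5 : Integrable fun x : E n => wt (α - 1) x * u x ^ 2 - wt (α - 2) x * u x ^ 2 := c3.sub c4
  have hint := integral_mono ((c1.const_mul (-(2 * β))).add (c5.const_mul (-(4 * β ^ 2)))) c2 hpt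
  refine le_trans (le_of_eq ?_) hint
  have hl := lin2 c1 c5 (-(2 * β)) (-(4 * β ^ 2))
  rw [integral_sub c3 c4] at hl
  refine Eq.trans ?_ hl.symm
  simp only [hd] at hw
  rw [hw]
  have h5 : ∫ x, u x ^ 2 * ((n : ℝ) * wt (α - 1) x + 2 * (α - 1) * (‖x‖ ^ 2 * wt (α - 2) x)) =
      (n + 2 * (α - 1)) * (∫ x, wt (α - 1) x * u x ^ 2) -
        2 * (α - 1) * ∫ x, wt (α - 2) x * u x ^ 2 := by
    have hl := lin2 c3 c4 ((n : ℝ) + 2 * (α - 1)) (-(2 * (α - 1)))
    have hl2 : ((n : ℝ) + 2 * (α - 1)) * (∫ x, wt (α - 1) x * u x ^ 2) -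
        2 * (α - 1) * (∫ x, wt (α - 2) x * u x ^ 2) =
        ((n : ℝ) + 2 * (α - 1)) * (∫ x, wt (α - 1) x * u x ^ 2) +
        -(2 * (α - 1)) * (∫ x, wt (α - 2) x * u x ^ 2) := by ring
    rw [hl2, ← hl]
    refine integral_congr_ae (Filter.Eventually.of_forall fun x => ?_)
    have := sq_wt (α - 1) x
    rw [e1] at this
    show u x ^ 2 * ((n : ℝ) * wt (α - 1) x + 2 * (α - 1) * (‖x‖ ^ 2 * wt (α - 2) x)) = _
    rw [this]
    ring
  rw [h5]
  ring

end Pool.Agent.T6.H44.Hardy
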