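import Mathlib

set_option autoImplicit false

open MeasureTheory Set Metric Filter Topology intervalIntegral

namespace Pool.Agent.T6.H44.Hardy

/-- the pointwise inequality behind `oned` -/
theorem pt_ineq {C A α β N r w X Y G : ℝ} (hA : A = 2 * (α - β) + N) (hC : C = -2 * A * (1 - β))
    (hC0 : 0 ≤ C) (hβ : 0 ≤ β * (β - α)) (hr : 0 < r) (hw : 0 < w) :
    0 ≤ w * X ^ 2 - C * (w / (1 + r ^ 2)) * Y ^ 2 -
      C * (((2 * A - (N + A * r ^ 2) * (N / r ^ 2 + 2 * α / (1 + r ^ 2))) / w) * G ^ 2 +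
        2 * ((N + A * r ^ 2) / (r * w)) * (w / (1 + r ^ 2)) * G * Y -
        2 * (w / (1 + r ^ 2)) * Y ^ 2 - 2 * G * X) := by
  have hb : 0 < 1 + r ^ 2 := by positivity
  have key : w * X ^ 2 - C * (w / (1 + r ^ 2)) * Y ^ 2 -
      C * (((2 * A - (N + A * r ^ 2) * (N / r ^ 2 + 2 * α / (1 + r ^ 2))) / w) * G ^ 2 +
        2 * ((N + A * r ^ 2) / (r * w)) * (w / (1 + r ^ 2)) * G * Y -
        2 * (w / (1 + r ^ 2)) * Y ^ 2 - 2 * G * X) =
      ((w * X + C * G) ^ 2 + C * ((w * Y - (N + A * r ^ 2) * G / r) ^ 2 / (1 + r ^ 2) +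
        4 * (β * (β - α)) / (1 + r ^ 2) * G ^ 2)) / w := by
    rw [hC, hA]
    field_simp
    ring
  rw [key]
  positivity

theorem oned {m : ℕ} {α β C A : ℝ} (hA : A = 2 * (α - β) + (m + 1 : ℕ)) (hC : C = -2 * A * (1 - β))
    (hC0 : 0 ≤ C) (hβ : 0 ≤ β * (β - α)) {f f' : ℝ → ℝ} (hf : ∀ r, HasDerivAt f (f' r) r)
    (hf' : Continuous f') {R : ℝ} (hR : 0 < R)
    (h0 : ∫ r in (0 : ℝ)..R, r ^ m * (1 + r ^ 2) ^ (α - 1) * f r = 0) :
    C * ∫ r in (0 : ℝ)..R, r ^ m * (1 + r ^ 2) ^ (α - 1) * f r ^ 2 ≤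
      ∫ r in (0 : ℝ)..R, r ^ m * (1 + r ^ 2) ^ α * f' r ^ 2 := by
  have hfc : Continuous f := continuous_iff_continuousAt.2 fun r => (hf r).continuousAt
  have hbc : ∀ a : ℝ, Continuous fun r : ℝ => (1 + r ^ 2 : ℝ) ^ a := fun a =>
    Continuous.rpow_const (by fun_prop) fun r => Or.inl (by positivity)
  set ρ : ℝ → ℝ := fun r => r ^ m * (1 + r ^ 2) ^ (α - 1) with hρ
  have hρc : Continuous ρ := (continuous_pow m).mul (hbc _)
  set G : ℝ → ℝ := fun r => ∫ s in (0 : ℝ)..r, ρ s * f s with hG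
  have hGd : ∀ r, HasDerivAt G (ρ r * f r) r := fun r =>
    integral_hasDerivAt_right ((hρc.mul hfc).intervalIntegrable _ _)
      ((hρc.mul hfc).stronglyMeasurableAtFilter _ _) (hρc.mul hfc).continuousAt
  have hGc : Continuous G := continuous_iff_continuousAt.2 fun r => (hGd r).continuousAt
  have hG0 : G 0 = 0 := by simp [hG]
  have hGR : G R = 0 := h0
  set p : ℝ → ℝ := fun r => (((m + 1 : ℕ) : ℝ) + A * r ^ 2) * ((r ^ (m + 1))⁻¹ * (1 + r ^ 2) ^ (-α)) with hp
  set w : ℝ → ℝ := fun r => r ^ m * (1 + r ^ 2) ^ α with hw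
  -- derivative of p
  have hpd : ∀ r, 0 < r → HasDerivAt p ((2 * A - (((m + 1 : ℕ) : ℝ) + A * r ^ 2) *
      (((m + 1 : ℕ) : ℝ) / r ^ 2 + 2 * α / (1 + r ^ 2))) / w r) r := by
    intro r hr
    have hb : 0 < 1 + r ^ 2 := by positivity
    have d1 : HasDerivAt (fun r : ℝ => ((m + 1 : ℕ) : ℝ) + A * r ^ 2) (A * (2 * r)) r := by
      have := ((hasDerivAt_pow 2 r).const_mul A).const_add ((m + 1 : ℕ) : ℝ)
      refine this.congr_deriv ?_
      simp
    have d2 : HasDerivAt (fun r : ℝ => (r ^ (m + 1))⁻¹) (-(((m + 1 : ℕ) : ℝ) * r ^ m) / (r ^ (m + 1)) ^ 2) r := by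
      have := (hasDerivAt_pow (m + 1) r).inv (by positivity)
      exact this
    have d3 : HasDerivAt (fun r : ℝ => (1 + r ^ 2 : ℝ) ^ (-α)) ((2 * r) * (-α) * (1 + r ^ 2) ^ (-α - 1)) r := by
      have h1 : HasDerivAt (fun r : ℝ => 1 + r ^ 2) (2 * r) r := by
        have := (hasDerivAt_pow 2 r).const_add 1
        refine this.congr_deriv ?_
        simp
      exact h1.rpow_const (Or.inl hb.ne')
    have d4 : HasDerivAt p _ r := d1.mul (d2.mul d3)
    refine d4.congr_deriv ?_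
    have e1 : (1 + r ^ 2 : ℝ) ^ (-α - 1) = (1 + r ^ 2) ^ (-α) / (1 + r ^ 2) :=
      Real.rpow_sub_one hb.ne' _
    have e2 : w r = r ^ m * ((1 + r ^ 2) ^ (-α))⁻¹ := by
      rw [hw, Real.rpow_neg hb.le, inv_inv]
    rw [e1, e2]
    have hq : (1 + r ^ 2 : ℝ) ^ (-α) ≠ 0 := (Real.rpow_pos_of_pos hb _).ne'
    field_simp
    ring
  set Θ : ℝ → ℝ := fun r => C * (p r * G r ^ 2 - 2 * (G r * f r)) with hΘ
  have hΘd : ∀ r, 0 < r → HasDerivAt Θ (C * (((2 * A - (((m + 1 : ℕ) : ℝ) + A * r ^ 2) *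
      (((m + 1 : ℕ) : ℝ) / r ^ 2 + 2 * α / (1 + r ^ 2))) / w r) * G r ^ 2 +
        p r * (2 * G r * (ρ r * f r)) - 2 * (ρ r * f r * f r + G r * f' r))) r := by
    intro r hr
    have d1 : HasDerivAt (fun r => G r ^ 2) (2 * G r * (ρ r * f r)) r := by
      have := (hGd r).pow 2
      refine this.congr_deriv ?_
      simp
    have d2 : HasDerivAt (fun r => G r * f r) (ρ r * f r * f r + G r * f' r) r := (hGd r).mul (hf r)
    exact (((hpd r hr).mul d1).sub (d2.const_mul 2)).const_mul C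
  -- continuity of Θ
  have hΘ0 : Θ 0 = 0 := by simp [hΘ, hG0]
  have hΘR : Θ R = 0 := by simp [hΘ, hGR]
  obtain ⟨M, hM⟩ := (isCompact_Icc (a := (0 : ℝ)) (b := R)).exists_bound_of_continuousOn
    (f := fun r => (1 + r ^ 2) ^ (α - 1) * f r) (((hbc _).mul hfc).continuousOn)
  have hGb : ∀ r ∈ Icc 0 R, |G r| ≤ M * r ^ (m + 1) := by
    intro r hr
    have h1 : ‖∫ s in (0 : ℝ)..r, ρ s * f s‖ ≤ ∫ s in (0 : ℝ)..r, M * s ^ m := by
      refine norm_integral_le_of_norm_le hr.1 (ae_of_all _ fun s hs => ?_) ?_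
      · have hs' : s ∈ Icc 0 R := ⟨hs.1.le, hs.2.trans hr.2⟩
        have h2 := hM s hs'
        have h3 : ρ s * f s = s ^ m * ((1 + s ^ 2) ^ (α - 1) * f s) := by rw [hρ]; ring
        rw [h3, norm_mul, Real.norm_of_nonneg (pow_nonneg hs'.1 m), mul_comm]
        exact mul_le_mul_of_nonneg_right h2 (pow_nonneg hs'.1 m)
      · exact (by fun_prop : Continuous fun s : ℝ => M * s ^ m).intervalIntegrable _ _
    have hM0 : 0 ≤ M := (norm_nonneg _).trans (hM 0 ⟨le_rfl, hR.le⟩)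
    rw [intervalIntegral.integral_const_mul, integral_pow] at h1
    rw [← Real.norm_eq_abs]
    refine h1.trans ?_
    refine mul_le_mul_of_nonneg_left ?_ hM0
    have h4 : 0 ≤ r ^ (m + 1) := pow_nonneg hr.1 _
    have h5 : (0:ℝ) ^ (m + 1) = 0 := by simp
    rw [h5, sub_zero]
    refine div_le_self h4 ?_
    have : (0:ℝ) ≤ m := Nat.cast_nonneg _
    linarith
  have hcont : ContinuousOn Θ (Icc 0 R) := by
    intro r hr
    rcases eq_or_lt_of_le hr.1 with h | h
    · subst h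
      have : Tendsto Θ (𝓝[Icc 0 R] 0) (𝓝 (Θ 0)) := by
        rw [hΘ0]
        have t1 : Tendsto (fun r => p r * G r ^ 2) (𝓝[Icc 0 R] 0) (𝓝 0) := by
          have hb : ∀ᶠ r in 𝓝[Icc 0 R] (0 : ℝ), ‖p r * G r ^ 2‖ ≤
              (|((m + 1 : ℕ) : ℝ) + A * r ^ 2| * ((1 + r ^ 2) ^ (-α) * M ^ 2)) * r ^ (m + 1) := by
            filter_upwards [self_mem_nhdsWithin] with r hr
            have hb : 0 < 1 + r ^ 2 := by positivity
            have hq : 0 < (1 + r ^ 2 : ℝ) ^ (-α) := Real.rpow_pos_of_pos hb _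
            have h1 := hGb r hr
            have h2 : G r ^ 2 ≤ (M * r ^ (m + 1)) ^ 2 := by
              rw [← sq_abs]
              exact pow_le_pow_left₀ (abs_nonneg _) h1 2
            have h3 : 0 ≤ r ^ (m + 1) := pow_nonneg hr.1 _
            rw [norm_mul, Real.norm_of_nonneg (sq_nonneg _), hp, norm_mul, norm_mul,
              Real.norm_of_nonneg hq.le, Real.norm_of_nonneg (inv_nonneg.2 h3), Real.norm_eq_abs]
            have h4 : (r ^ (m + 1))⁻¹ * (M * r ^ (m + 1)) ^ 2 ≤ M ^ 2 * r ^ (m + 1) := by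
              rcases eq_or_lt_of_le h3 with h5 | h5
              · rw [← h5]; simp
              · have : (r ^ (m + 1))⁻¹ * (M * r ^ (m + 1)) ^ 2 = M ^ 2 * r ^ (m + 1) := by
                  field_simp
                rw [this]
            calc |((m + 1 : ℕ) : ℝ) + A * r ^ 2| * ((r ^ (m + 1))⁻¹ * (1 + r ^ 2) ^ (-α)) * G r ^ 2
                ≤ |((m + 1 : ℕ) : ℝ) + A * r ^ 2| * ((r ^ (m + 1))⁻¹ * (1 + r ^ 2) ^ (-α)) *
                  (M * r ^ (m + 1)) ^ 2 := by gcongr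
              _ = |((m + 1 : ℕ) : ℝ) + A * r ^ 2| * (1 + r ^ 2) ^ (-α) *
                  ((r ^ (m + 1))⁻¹ * (M * r ^ (m + 1)) ^ 2) := by ring
              _ ≤ |((m + 1 : ℕ) : ℝ) + A * r ^ 2| * (1 + r ^ 2) ^ (-α) * (M ^ 2 * r ^ (m + 1)) := by
                  gcongr
              _ = _ := by ring
          refine squeeze_zero_norm' hb ?_
          have hc : Continuous fun r : ℝ =>
              (|((m + 1 : ℕ) : ℝ) + A * r ^ 2| * ((1 + r ^ 2) ^ (-α) * M ^ 2)) * r ^ (m + 1) := by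
            have := hbc (-α)
            fun_prop
          have := hc.tendsto 0
          simp only [ne_eq, Nat.add_eq_zero_iff, one_ne_zero, and_false, not_false_eq_true, zero_pow,
            mul_zero] at this
          exact this.mono_left nhdsWithin_le_nhds
        have t2 : Tendsto (fun r => G r * f r) (𝓝[Icc 0 R] 0) (𝓝 0) := by
          have : Tendsto (fun r => G r * f r) (𝓝 0) (𝓝 (G 0 * f 0)) := (hGc.mul hfc).tendsto 0
          rw [show G 0 * f 0 = 0 by rw [hG0, zero_mul]] at this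
          exact this.mono_left nhdsWithin_le_nhds
        have := (t1.sub (t2.const_mul 2)).const_mul C
        simpa using this
      exact this
    · exact (hΘd r h).continuousAt.continuousWithinAt
  -- integrate
  have hint : IntegrableOn (fun r => w r * f' r ^ 2 - C * (ρ r * f r ^ 2)) (Icc 0 R) := by
    refine Continuous.integrableOn_Icc ?_
    have h1 : Continuous w := (continuous_pow m).mul (hbc _)
    fun_prop
  have key := sub_le_integral_of_hasDeriv_right_of_le hR.le hcont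
    (fun r hr => (hΘd r hr.1).hasDerivWithinAt) hint (fun r hr => ?_)
  · rw [hΘ0, hΘR, sub_zero] at key
    have i1 : IntervalIntegrable (fun r => w r * f' r ^ 2) volume 0 R := by
      have h1 : Continuous w := (continuous_pow m).mul (hbc _)
      exact (by fun_prop : Continuous fun r => w r * f' r ^ 2).intervalIntegrable _ _
    have i2 : IntervalIntegrable (fun r => C * (ρ r * f r ^ 2)) volume 0 R := by
      exact (by fun_prop : Continuous fun r => C * (ρ r * f r ^ 2)).intervalIntegrable _ _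
    rw [intervalIntegral.integral_sub i1 i2, intervalIntegral.integral_const_mul] at key
    have e1 : ∫ r in (0 : ℝ)..R, ρ r * f r ^ 2 =
      ∫ r in (0 : ℝ)..R, r ^ m * (1 + r ^ 2) ^ (α - 1) * f r ^ 2 := rfl
    rw [e1] at key
    have e2 : ∫ r in (0 : ℝ)..R, w r * f' r ^ 2 =
      ∫ r in (0 : ℝ)..R, r ^ m * (1 + r ^ 2) ^ α * f' r ^ 2 := rfl
    rw [e2] at key
    linarith
  · have hr0 := hr.1
    have hb : 0 < 1 + r ^ 2 := by positivity
    have hw0 : 0 < w r := by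
      have : 0 < (1 + r ^ 2 : ℝ) ^ α := Real.rpow_pos_of_pos hb _
      positivity
    have h1 := pt_ineq (X := f' r) (Y := f r) (G := G r) hA hC hC0 hβ hr0 hw0
    have e1 : ρ r = w r / (1 + r ^ 2) := by
      rw [hρ, hw]
      simp only
      rw [Real.rpow_sub_one hb.ne']
      ring
    have e2 : p r = (((m + 1 : ℕ) : ℝ) + A * r ^ 2) / (r * w r) := by
      rw [hp, hw]
      simp only
      rw [Real.rpow_neg hb.le]
      have : (1 + r ^ 2 : ℝ) ^ α ≠ 0 := (Real.rpow_pos_of_pos hb _).ne'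
      field_simp
      ring
    rw [e2, e1]
    nlinarith [h1]

end Pool.Agent.T6.H44.Hardy
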