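import Mathlib
import Pool.Agent.T6.H44.Hardy.Low
import Pool.Agent.T6.H44.Hardy.OneD

set_option autoImplicit false

open MeasureTheory Set Metric Filter Topology

namespace Pool.Agent.T6.H44.Hardy

variable {m : ℕ}

/-- the unit sphere -/
abbrev Sp (m : ℕ) : Type := sphere (0 : E (m + 1)) 1

/-- the surface measure -/
noncomputable abbrev sig (m : ℕ) : Measure (Sp m) := (volume : Measure (E (m + 1))).toSphere

/-- polar coordinates -/
theorem polar (f : E (m + 1) → ℝ) (hf : Integrable f) :
    IntegrableOn (fun r : ℝ => r ^ m * ∫ w : Sp m, f (r • (w : E (m + 1))) ∂(sig m)) (Ioi 0) ∧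
    ∫ x, f x = ∫ r in Ioi (0 : ℝ), r ^ m * ∫ w : Sp m, f (r • (w : E (m + 1))) ∂(sig m) := by
  have hdim : Module.finrank ℝ (E (m + 1)) - 1 = m := by simp
  set F : Sp m × Ioi (0 : ℝ) → ℝ := fun p => f ((p.2 : ℝ) • (p.1 : E (m + 1))) with hF
  have hcomp : F ∘ (homeomorphUnitSphereProd (E (m + 1))) =
      f ∘ ((↑) : ({(0)}ᶜ : Set (E (m + 1))) → E (m + 1)) := by
    funext y
    have hy : ‖(y : E (m + 1))‖ ≠ 0 := norm_ne_zero_iff.2 y.2
    have h1 : ((homeomorphUnitSphereProd (E (m + 1)) y).1 : E (m + 1)) =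
        ‖(y : E (m + 1))‖⁻¹ • (y : E (m + 1)) := by simp
    have h2 : ((homeomorphUnitSphereProd (E (m + 1)) y).2 : ℝ) = ‖(y : E (m + 1))‖ := by simp
    simp only [hF, Function.comp_apply, h1, h2, smul_smul, mul_inv_cancel₀ hy, one_smul]
  have hmp := (volume : Measure (E (m + 1))).measurePreserving_homeomorphUnitSphereProd
  have hFi : Integrable F ((volume : Measure (E (m + 1))).toSphere.prod
      (.volumeIoiPow (Module.finrank ℝ (E (m + 1)) - 1))) := by
    rw [← hmp.integrable_comp_emb (Homeomorph.measurableEmbedding _), hcomp,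
      ← integrableOn_iff_comap_subtypeVal (measurableSet_singleton _).compl]
    exact hf.integrableOn
  have hw : (Measure.volumeIoiPow (Module.finrank ℝ (E (m + 1)) - 1)) =
      (Measure.comap ((↑) : Ioi (0 : ℝ) → ℝ) volume).withDensity
        (fun r => ((Real.toNNReal ((r : ℝ) ^ m) : NNReal) : ENNReal)) := by
    rw [hdim]; rfl
  have hm : Measurable fun r : Ioi (0 : ℝ) => Real.toNNReal ((r : ℝ) ^ m) :=
    (measurable_subtype_coe.pow_const _).real_toNNReal
  constructor
  · have h1 := hFi.integral_prod_right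
    rw [hw, integrable_withDensity_iff_integrable_smul hm] at h1
    rw [integrableOn_iff_comap_subtypeVal measurableSet_Ioi]
    refine h1.congr (Filter.Eventually.of_forall fun r => ?_)
    simp only [Function.comp_apply, NNReal.smul_def, smul_eq_mul]
    rw [Real.coe_toNNReal _ (pow_nonneg r.2.le _)]
  · calc ∫ x, f x = ∫ y : ({(0)}ᶜ : Set (E (m + 1))), f (y : E (m + 1))
        ∂((volume : Measure (E (m + 1))).comap ((↑) : ({(0)}ᶜ : Set (E (m + 1))) → E (m + 1))) := by
          rw [integral_subtype_comap (measurableSet_singleton _).compl f, restrict_compl_singleton]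
      _ = ∫ p, F p ∂((volume : Measure (E (m + 1))).toSphere.prod
          (.volumeIoiPow (Module.finrank ℝ (E (m + 1)) - 1))) := by
          rw [← hmp.integral_comp (Homeomorph.measurableEmbedding _)]
          refine integral_congr_ae (Filter.Eventually.of_forall fun y => ?_)
          exact (congrFun hcomp y).symm
      _ = ∫ r : Ioi (0 : ℝ), (∫ w : Sp m, f ((r : ℝ) • (w : E (m + 1))) ∂(sig m))
          ∂(Measure.volumeIoiPow (Module.finrank ℝ (E (m + 1)) - 1)) := by
          rw [integral_prod_symm _ hFi]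
      _ = _ := by
          rw [hw, integral_withDensity_eq_integral_smul hm,
            integral_subtype_comap measurableSet_Ioi fun r : ℝ => Real.toNNReal (r ^ m) •
              (∫ w : Sp m, f (r • (w : E (m + 1))) ∂(sig m))]
          refine setIntegral_congr_fun measurableSet_Ioi fun r hr => ?_
          simp only [NNReal.smul_def, smul_eq_mul]
          rw [Real.coe_toNNReal _ (pow_nonneg (le_of_lt hr) _)]

/-- the total mass of the sphere -/
noncomputable def mass (m : ℕ) : ℝ := (sig m).real univ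

theorem mass_pos : 0 < mass m := by
  unfold mass Measure.real
  refine ENNReal.toReal_pos ?_ (measure_ne_top _ _)
  rw [ne_eq, Measure.measure_univ_eq_zero]
  exact Measure.toSphere_ne_zero _

theorem norm_sp (w : Sp m) : ‖(w : E (m + 1))‖ = 1 := by
  have := w.2
  rwa [mem_sphere_zero_iff_norm] at this

/-- spherical averages -/
noncomputable def sa (u : E (m + 1) → ℝ) (r : ℝ) : ℝ :=
  (∫ w : Sp m, u (r • (w : E (m + 1))) ∂(sig m)) / mass m

/-- the derivative of the spherical averages -/
noncomputable def sa' (u : E (m + 1) → ℝ) (r : ℝ) : ℝ :=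
  (∫ w : Sp m, fderiv ℝ u (r • (w : E (m + 1))) w ∂(sig m)) / mass m

section
variable {u : E (m + 1) → ℝ} (hu : ContDiff ℝ 1 u) (hc : HasCompactSupport u)
include hu hc

theorem sa_hasDerivAt (r : ℝ) : HasDerivAt (sa u) (sa' u r) r := by
  obtain ⟨B, hB⟩ := (hc.fderiv (𝕜 := ℝ)).exists_bound_of_continuous (hu.continuous_fderiv one_ne_zero)
  have key := hasDerivAt_integral_of_dominated_loc_of_deriv_le (μ := sig m) (x₀ := r)
    (F := fun (t : ℝ) (w : Sp m) => u (t • (w : E (m + 1))))
    (F' := fun (t : ℝ) (w : Sp m) => fderiv ℝ u (t • (w : E (m + 1))) w)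
    (bound := fun _ => B) (s := univ) univ_mem ?_ ?_ ?_ ?_ ?_ ?_
  · have := key.2.div_const (mass m)
    exact this
  · refine Filter.Eventually.of_forall fun t => ?_
    exact (hu.continuous.comp (by fun_prop)).aestronglyMeasurable
  · have hcont : Continuous fun w : Sp m => u (r • (w : E (m + 1))) :=
      hu.continuous.comp (by fun_prop)
    obtain ⟨B', hB'⟩ := hc.exists_bound_of_continuous hu.continuous
    exact (integrable_const B').mono' hcont.aestronglyMeasurable
      (Filter.Eventually.of_forall fun w => hB' _)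
  · have h1 : Continuous fun w : Sp m => fderiv ℝ u (r • (w : E (m + 1))) (w : E (m + 1)) :=
      ((hu.continuous_fderiv one_ne_zero).comp (by fun_prop)).clm_apply (by fun_prop)
    exact h1.aestronglyMeasurable
  · refine Filter.Eventually.of_forall fun w t _ => ?_
    refine (ContinuousLinearMap.le_opNorm _ _).trans ?_
    rw [norm_sp, mul_one]
    exact hB _
  · exact integrable_const _
  · refine Filter.Eventually.of_forall fun w t _ => ?_
    have h1 : HasFDerivAt u (fderiv ℝ u (t • (w : E (m + 1)))) (t • (w : E (m + 1))) :=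
      (hu.differentiable one_ne_zero _).hasFDerivAt
    have h2 : HasDerivAt (fun t : ℝ => t • (w : E (m + 1))) (w : E (m + 1)) t := by
      simpa using (hasDerivAt_id t).smul_const (w : E (m + 1))
    exact h1.comp_hasDerivAt t h2

theorem sa'_cont : Continuous (sa' u) := by
  obtain ⟨B, hB⟩ := (hc.fderiv (𝕜 := ℝ)).exists_bound_of_continuous (hu.continuous_fderiv one_ne_zero)
  have h : Continuous fun r : ℝ => ∫ w : Sp m, fderiv ℝ u (r • (w : E (m + 1))) w ∂(sig m) := by
    refine continuous_of_dominated (bound := fun _ => B) ?_ ?_ (integrable_const _) ?_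
    · intro r
      have h1 : Continuous fun w : Sp m => fderiv ℝ u (r • (w : E (m + 1))) (w : E (m + 1)) :=
        ((hu.continuous_fderiv one_ne_zero).comp (by fun_prop)).clm_apply (by fun_prop)
      exact h1.aestronglyMeasurable
    · intro r
      refine Filter.Eventually.of_forall fun w => ?_
      refine (ContinuousLinearMap.le_opNorm _ _).trans ?_
      rw [norm_sp, mul_one]
      exact hB _
    · refine Filter.Eventually.of_forall fun w => ?_
      exact ((hu.continuous_fderiv one_ne_zero).comp (by fun_prop)).clm_apply (by fun_prop)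
  exact h.div_const _

end

/-- linear functions have vanishing mean over the sphere -/
theorem lin_mean (L : E (m + 1) →L[ℝ] ℝ) : ∫ w : Sp m, L (w : E (m + 1)) ∂(sig m) = 0 := by
  set g : E (m + 1) → ℝ := fun x => L x * Real.exp (-(‖x‖ ^ 2)) with hg
  have hneg : ∫ x, g x = 0 := by
    have h1 : ∫ x, g x = ∫ x, g (-x) := (integral_neg_eq_self g volume).symm
    have h2 : ∀ x, g (-x) = -g x := by
      intro x
      simp [hg]
    simp only [h2, integral_neg] at h1
    linarith
  have hgi : Integrable g := by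
    have h1 : Integrable fun x : E (m + 1) => ‖L‖ * Real.exp (-(1/2) * ‖x‖ ^ 2) := by
      refine Integrable.const_mul ?_ _
      have := GaussianFourier.integrable_cexp_neg_mul_sq_norm_add (V := E (m + 1)) (b := 1/2)
        (by norm_num) 0 0
      refine this.re.congr (Filter.Eventually.of_forall fun x => ?_)
      simp
      rw [← Complex.ofReal_pow]
      have : Complex.exp (-(2⁻¹ * ((‖x‖ ^ 2 : ℝ) : ℂ))) = ((Real.exp (-(2⁻¹ * ‖x‖ ^ 2)) : ℝ) : ℂ) := by
        push_cast
        rfl
      rw [this, Complex.ofReal_re]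
    refine h1.mono' (by fun_prop) (Filter.Eventually.of_forall fun x => ?_)
    rw [hg, norm_mul, Real.norm_of_nonneg (Real.exp_pos _).le]
    have h2 := L.le_opNorm x
    have h3 : ‖x‖ * Real.exp (-(‖x‖ ^ 2)) ≤ Real.exp (-(1/2) * ‖x‖ ^ 2) := by
      have h4 : ‖x‖ ≤ Real.exp ((1/2) * ‖x‖ ^ 2) := by
        have := Real.add_one_le_exp ((1/2) * ‖x‖ ^ 2)
        nlinarith [sq_nonneg (‖x‖ - 1)]
      calc ‖x‖ * Real.exp (-(‖x‖ ^ 2)) ≤ Real.exp ((1/2) * ‖x‖ ^ 2) * Real.exp (-(‖x‖ ^ 2)) := by
            gcongr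
        _ = _ := by
            rw [← Real.exp_add]
            congr 1
            ring
    calc ‖L x‖ * Real.exp (-(‖x‖ ^ 2)) ≤ ‖L‖ * ‖x‖ * Real.exp (-(‖x‖ ^ 2)) := by gcongr
      _ = ‖L‖ * (‖x‖ * Real.exp (-(‖x‖ ^ 2))) := by ring
      _ ≤ _ := by gcongr
  obtain ⟨h1, h2⟩ := polar g hgi
  rw [hneg] at h2
  have h3 : ∀ r : ℝ, 0 < r → r ^ m * ∫ w : Sp m, g (r • (w : E (m + 1))) ∂(sig m) =
      (∫ w : Sp m, L (w : E (m + 1)) ∂(sig m)) * (r ^ (m + 1) * Real.exp (-(r ^ 2))) := by
    intro r hr
    have h4 : ∀ w : Sp m, g (r • (w : E (m + 1))) = (r * Real.exp (-(r ^ 2))) * L (w : E (m + 1)) := by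
      intro w
      rw [hg]
      simp only [map_smul, smul_eq_mul, norm_smul, norm_sp, mul_one, Real.norm_eq_abs, sq_abs]
      ring
    simp only [h4, integral_const_mul]
    ring
  rw [setIntegral_congr_fun measurableSet_Ioi (fun r hr => h3 r hr), integral_const_mul] at h2
  have h5 : 0 < ∫ r in Ioi (0 : ℝ), r ^ (m + 1) * Real.exp (-(r ^ 2)) := by
    have hm0 : (0:ℝ) ≤ ((m + 1 : ℕ) : ℝ) := Nat.cast_nonneg _
    have h6 := integral_rpow_mul_exp_neg_mul_rpow (p := 2) (q := ((m + 1 : ℕ) : ℝ)) (b := 1)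
      (by norm_num) (by linarith) one_pos
    have h7 : ∫ r in Ioi (0 : ℝ), r ^ (m + 1) * Real.exp (-(r ^ 2)) =
        ∫ r in Ioi (0 : ℝ), r ^ (((m + 1 : ℕ) : ℝ)) * Real.exp (-1 * r ^ (2 : ℝ)) := by
      refine setIntegral_congr_fun measurableSet_Ioi fun r _ => ?_
      show r ^ (m + 1) * Real.exp (-(r ^ 2)) = r ^ (((m + 1 : ℕ) : ℝ)) * Real.exp (-1 * r ^ (2 : ℝ))
      rw [Real.rpow_natCast, show ((2 : ℝ)) = ((2 : ℕ) : ℝ) by norm_num, Real.rpow_natCast, neg_one_mul]
    rw [h7, h6]
    have h8 : 0 < Real.Gamma ((((m + 1 : ℕ) : ℝ) + 1) / 2) := Real.Gamma_pos_of_pos (by positivity)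
    positivity
  rcases mul_eq_zero.1 h2.symm with h | h
  · exact h
  · exact absurd h h5.ne'

end Pool.Agent.T6.H44.Hardy
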