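import Mathlib
import Pool.Agent.T6.H44.Hardy.Sph

set_option autoImplicit false

open MeasureTheory Set Metric Filter Topology

namespace Pool.Agent.T6.H44.Hardy

variable {m : ℕ}

/-- the radial part -/
noncomputable def rad (u : E (m + 1) → ℝ) (x : E (m + 1)) : ℝ := sa u ‖x‖

/-- its gradient -/
noncomputable def gr (u : E (m + 1) → ℝ) (x : E (m + 1)) : E (m + 1) := (sa' u ‖x‖ / ‖x‖) • x

theorem hasFDerivAt_norm' {x : E (m + 1)} (hx : x ≠ 0) :
    HasFDerivAt (fun y : E (m + 1) => ‖y‖) (‖x‖⁻¹ • innerSL ℝ x) x := by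
  have h1 : HasFDerivAt (fun y : E (m + 1) => ‖y‖ ^ 2) ((2 : ℕ) • innerSL ℝ x) x :=
    (hasStrictFDerivAt_norm_sq x).hasFDerivAt
  have hx' : 0 < ‖x‖ := norm_pos_iff.2 hx
  have h2 := h1.sqrt (by positivity)
  have h3 : (fun y : E (m + 1) => √(‖y‖ ^ 2)) = fun y => ‖y‖ := by
    funext y
    exact Real.sqrt_sq (norm_nonneg _)
  rw [h3] at h2
  refine h2.congr_fderiv ?_
  rw [Real.sqrt_sq (norm_nonneg _)]
  ext y
  simp
  field_simp

theorem norm_gr (u : E (m + 1) → ℝ) (x : E (m + 1)) (h0 : sa' u 0 = 0) :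
    ‖gr u x‖ = |sa' u ‖x‖| := by
  unfold gr
  rw [norm_smul, norm_div, norm_norm, Real.norm_eq_abs]
  rcases eq_or_ne x 0 with rfl | hx
  · simp [h0]
  · have : ‖x‖ ≠ 0 := norm_ne_zero_iff.2 hx
    field_simp

section
variable {u : E (m + 1) → ℝ} (hu : ContDiff ℝ 1 u) (hc : HasCompactSupport u)

theorem sa'_zero (u : E (m + 1) → ℝ) : sa' u 0 = 0 := by
  unfold sa'
  have := lin_mean (fderiv ℝ u 0)
  simp only [zero_smul]
  rw [this, zero_div]

include hu hc

theorem gr_cont : Continuous (gr u) := by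
  rw [continuous_iff_continuousAt]
  intro x
  rcases eq_or_ne x 0 with rfl | hx
  · have h1 : gr u 0 = 0 := by simp [gr]
    unfold ContinuousAt
    rw [h1, tendsto_zero_iff_norm_tendsto_zero]
    have h2 : (fun x => ‖gr u x‖) = fun x => |sa' u ‖x‖| := funext fun x => norm_gr u x (sa'_zero u)
    rw [h2]
    have h3 : Continuous fun x : E (m + 1) => |sa' u ‖x‖| :=
      ((sa'_cont hu hc).comp continuous_norm).abs
    have := h3.tendsto 0
    simpa [sa'_zero u] using this
  · unfold gr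
    have hx' : ‖x‖ ≠ 0 := norm_ne_zero_iff.2 hx
    have h3 : ContinuousAt (fun x : E (m + 1) => sa' u ‖x‖) x :=
      ((sa'_cont hu hc).comp continuous_norm).continuousAt
    exact (h3.div continuous_norm.continuousAt hx').smul continuousAt_id

theorem rad_hasFDerivAt (x : E (m + 1)) : HasFDerivAt (rad u) (innerSL ℝ (gr u x)) x := by
  rcases eq_or_ne x 0 with rfl | hx
  · have h1 : gr u 0 = 0 := by simp [gr]
    rw [h1, map_zero]
    have h2 := sa_hasDerivAt hu hc 0
    rw [sa'_zero u, hasDerivAt_iff_isLittleO_nhds_zero] at h2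
    rw [hasFDerivAt_iff_isLittleO_nhds_zero]
    have h3 : Tendsto (fun h : E (m + 1) => ‖h‖) (𝓝 0) (𝓝 0) := by
      simpa using (continuous_norm (E := E (m + 1))).tendsto 0
    have h4 := h2.comp_tendsto h3
    have h5 : (fun h : E (m + 1) => rad u (0 + h) - rad u 0 - (0 : E (m + 1) →L[ℝ] ℝ) h) =
        (fun h : ℝ => sa u (0 + h) - sa u 0 - h • (0 : ℝ)) ∘ fun h : E (m + 1) => ‖h‖ := by
      funext h
      simp [rad]
    rw [h5]
    exact h4.trans_isBigO (Asymptotics.isBigO_of_le _ fun h => by simp)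
  · have h1 := (sa_hasDerivAt hu hc ‖x‖).comp_hasFDerivAt x (hasFDerivAt_norm' hx)
    refine h1.congr_fderiv ?_
    unfold gr
    rw [map_smul, smul_smul]
    congr 1

theorem rad_contDiff : ContDiff ℝ 1 (rad u) := by
  rw [contDiff_one_iff_hasFDerivAt]
  exact ⟨fun x => innerSL ℝ (gr u x), (innerSL ℝ).continuous.comp (gr_cont hu hc),
    rad_hasFDerivAt hu hc⟩

omit hu in
theorem radius : ∃ R : ℝ, 0 < R ∧ ∀ x, R ≤ ‖x‖ → u x = 0 ∧ fderiv ℝ u x = 0 := by
  obtain ⟨R, hR⟩ := hc.isCompact.isBounded.subset_closedBall (0 : E (m + 1))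
  refine ⟨max R 0 + 1, by positivity, fun x hx => ?_⟩
  have h1 : x ∉ tsupport u := by
    intro h
    have := hR h
    rw [mem_closedBall_zero_iff] at this
    have := le_max_left R 0
    linarith
  refine ⟨image_eq_zero_of_notMem_tsupport h1, ?_⟩
  have h2 : x ∉ tsupport (fderiv ℝ u) := fun h => h1 (tsupport_fderiv_subset ℝ h)
  exact image_eq_zero_of_notMem_tsupport h2

omit hu hc in
theorem sa_zero_of {R : ℝ} (hR : 0 < R) (h : ∀ x, R ≤ ‖x‖ → u x = 0 ∧ fderiv ℝ u x = 0) {r : ℝ}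
    (hr : R ≤ r) : sa u r = 0 ∧ sa' u r = 0 := by
  have hn : ∀ w : Sp m, R ≤ ‖r • (w : E (m + 1))‖ := by
    intro w
    rw [norm_smul, norm_sp, mul_one, Real.norm_of_nonneg (hR.le.trans hr)]
    exact hr
  constructor
  · unfold sa
    have : ∀ w : Sp m, u (r • (w : E (m + 1))) = 0 := fun w => (h _ (hn w)).1
    simp [this]
  · unfold sa'
    have : ∀ w : Sp m, fderiv ℝ u (r • (w : E (m + 1))) = 0 := fun w => (h _ (hn w)).2
    simp [this]

omit hu in
theorem rad_compact : HasCompactSupport (rad u) := by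
  obtain ⟨R, hR, h⟩ := radius hc
  refine HasCompactSupport.intro (isCompact_closedBall (0 : E (m + 1)) R) fun x hx => ?_
  rw [mem_closedBall_zero_iff, not_le] at hx
  exact (sa_zero_of hR h hx.le).1

/-- spherical means of `u` against radial functions -/
theorem mean_zero (φ : ℝ → ℝ) (hφ : Continuous fun x : E (m + 1) => φ ‖x‖) :
    ∫ x, φ ‖x‖ * (u x - rad u x) = 0 := by
  have hcont : Continuous fun x => φ ‖x‖ * (u x - rad u x) :=
    hφ.mul (hu.continuous.sub (rad_contDiff hu hc).continuous)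
  have hcs : HasCompactSupport fun x => φ ‖x‖ * (u x - rad u x) :=
    (hc.sub (rad_compact hc)).mul_left
  obtain ⟨-, h2⟩ := polar _ (hcont.integrable_of_hasCompactSupport hcs)
  rw [h2]
  refine (setIntegral_congr_fun measurableSet_Ioi (g := fun _ => (0:ℝ)) fun r hr => ?_).trans (by simp)
  have hr' : 0 < r := hr
  have hn : ∀ w : Sp m, ‖r • (w : E (m + 1))‖ = r := by
    intro w
    rw [norm_smul, norm_sp, mul_one, Real.norm_of_nonneg hr'.le]
  have h3 : ∀ w : Sp m, φ ‖r • (w : E (m + 1))‖ * (u (r • (w : E (m + 1))) - rad u (r • (w : E (m + 1)))) =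
      φ r * (u (r • (w : E (m + 1))) - sa u r) := by
    intro w
    unfold rad
    rw [hn w]
  simp only [h3, integral_const_mul]
  have hi : Integrable (fun w : Sp m => u (r • (w : E (m + 1)))) (sig m) := by
    have hcont : Continuous fun w : Sp m => u (r • (w : E (m + 1))) :=
      hu.continuous.comp (by fun_prop)
    obtain ⟨B', hB'⟩ := hc.exists_bound_of_continuous hu.continuous
    exact (integrable_const B').mono' hcont.aestronglyMeasurable
      (Filter.Eventually.of_forall fun w => hB' _)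
  rw [integral_sub hi (integrable_const _), integral_const]
  have : (sig m).real univ • sa u r = ∫ w : Sp m, u (r • (w : E (m + 1))) ∂(sig m) := by
    unfold sa
    rw [smul_eq_mul]
    exact mul_div_cancel₀ _ (mass_pos (m := m)).ne'
  rw [this, sub_self, mul_zero, mul_zero]

/-- orthogonality of the gradients -/
theorem grad_ortho (φ : ℝ → ℝ) (hφ : Continuous fun x : E (m + 1) => φ ‖x‖) :
    ∫ x, φ ‖x‖ * (fderiv ℝ (fun y => u y - rad u y) x (gr u x)) = 0 := by
  have hF := rad_contDiff hu hc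
  have hv : ContDiff ℝ 1 fun y => u y - rad u y := hu.sub hF
  have hvc : HasCompactSupport fun y => u y - rad u y := hc.sub (rad_compact hc)
  have hcont : Continuous fun x => φ ‖x‖ * (fderiv ℝ (fun y => u y - rad u y) x (gr u x)) :=
    hφ.mul ((hv.continuous_fderiv one_ne_zero).clm_apply (gr_cont hu hc))
  have hcs : HasCompactSupport fun x => φ ‖x‖ * (fderiv ℝ (fun y => u y - rad u y) x (gr u x)) := by
    refine HasCompactSupport.mul_left ?_
    refine (hvc.fderiv (𝕜 := ℝ)).mono ?_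
    intro x hx
    rw [Function.mem_support] at hx ⊢
    intro h
    exact hx (by rw [h]; rfl)
  obtain ⟨-, h2⟩ := polar _ (hcont.integrable_of_hasCompactSupport hcs)
  rw [h2]
  refine (setIntegral_congr_fun measurableSet_Ioi (g := fun _ => (0:ℝ)) fun r hr => ?_).trans (by simp)
  have hr' : 0 < r := hr
  have hn : ∀ w : Sp m, ‖r • (w : E (m + 1))‖ = r := by
    intro w
    rw [norm_smul, norm_sp, mul_one, Real.norm_of_nonneg hr'.le]
  have hg : ∀ w : Sp m, gr u (r • (w : E (m + 1))) = sa' u r • (w : E (m + 1)) := by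
    intro w
    unfold gr
    rw [hn w, smul_smul, div_mul_cancel₀ _ hr'.ne']
  have hd : ∀ w : Sp m, fderiv ℝ (fun y => u y - rad u y) (r • (w : E (m + 1))) (w : E (m + 1)) =
      fderiv ℝ u (r • (w : E (m + 1))) (w : E (m + 1)) - sa' u r := by
    intro w
    have h4 : HasFDerivAt (fun y => u y - rad u y) (fderiv ℝ u (r • (w : E (m + 1))) -
        innerSL ℝ (gr u (r • (w : E (m + 1))))) (r • (w : E (m + 1))) :=
      ((hu.differentiable one_ne_zero _).hasFDerivAt).sub (rad_hasFDerivAt hu hc _)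
    rw [h4.fderiv, hg w]
    have h5 : (innerSL ℝ (sa' u r • (w : E (m + 1)))) (w : E (m + 1)) = sa' u r := by
      rw [innerSL_apply_apply, real_inner_smul_left, real_inner_self_eq_norm_sq, norm_sp]
      ring
    rw [_root_.sub_apply, h5]
  have h3 : ∀ w : Sp m, φ ‖r • (w : E (m + 1))‖ *
      (fderiv ℝ (fun y => u y - rad u y) (r • (w : E (m + 1)))) (gr u (r • (w : E (m + 1)))) =
      (φ r * sa' u r) * (fderiv ℝ u (r • (w : E (m + 1))) (w : E (m + 1)) - sa' u r) := by
    intro w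
    rw [hn w, hg w, map_smul, hd w, smul_eq_mul]
    ring
  simp only [h3, integral_const_mul]
  have hi : Integrable (fun w : Sp m => fderiv ℝ u (r • (w : E (m + 1))) (w : E (m + 1))) (sig m) := by
    have hcont : Continuous fun w : Sp m => fderiv ℝ u (r • (w : E (m + 1))) (w : E (m + 1)) :=
      ((hu.continuous_fderiv one_ne_zero).comp (by fun_prop)).clm_apply (by fun_prop)
    obtain ⟨B', hB'⟩ := (hc.fderiv (𝕜 := ℝ)).exists_bound_of_continuous
      (hu.continuous_fderiv one_ne_zero)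
    refine (integrable_const B').mono' hcont.aestronglyMeasurable
      (Filter.Eventually.of_forall fun w => ?_)
    refine (ContinuousLinearMap.le_opNorm _ _).trans ?_
    rw [norm_sp, mul_one]
    exact hB' _
  rw [integral_sub hi (integrable_const _), integral_const]
  have : (sig m).real univ • sa' u r =
      ∫ w : Sp m, fderiv ℝ u (r • (w : E (m + 1))) (w : E (m + 1)) ∂(sig m) := by
    unfold sa'
    rw [smul_eq_mul]
    exact mul_div_cancel₀ _ (mass_pos (m := m)).ne'
  rw [this, sub_self, mul_zero, mul_zero]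

end

/-- norm of a sum of functionals -/
theorem norm_add_inner (L : E (m + 1) →L[ℝ] ℝ) (V : E (m + 1)) :
    ‖L + innerSL ℝ V‖ ^ 2 = ‖L‖ ^ 2 + 2 * L V + ‖V‖ ^ 2 := by
  obtain ⟨w, rfl⟩ : ∃ w : E (m + 1), innerSL ℝ w = L := by
    refine ⟨(InnerProductSpace.toDual ℝ (E (m + 1))).symm L, ?_⟩
    ext y
    simp
  rw [← map_add, innerSL_apply_norm, innerSL_apply_norm, innerSL_apply_apply, norm_add_sq_real]

/-- the constrained inequality -/
theorem constr {α β C A : ℝ} (hα : α < 0) (hA : A = 2 * (α - β) + (m + 1 : ℕ))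
    (hC : C = -2 * A * (1 - β)) (hC0 : 0 ≤ C) (hβ : 0 ≤ β * (β - α)) {u : E (m + 1) → ℝ}
    (hu : ContDiff ℝ 1 u) (hc : HasCompactSupport u) (h0 : ∫ x, wt (α - 1) x * u x = 0) :
    min C (-2 * α) * ∫ x, wt (α - 1) x * u x ^ 2 ≤ ∫ x, wt α x * ‖fderiv ℝ u x‖ ^ 2 := by
  have hF := rad_contDiff hu hc
  have hFc := rad_compact hc
  set v : E (m + 1) → ℝ := fun y => u y - rad u y with hvdef
  have hv : ContDiff ℝ 1 v := hu.sub hF
  have hvc : HasCompactSupport v := hc.sub hFc
  -- the part without spherical means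
  have hwc : ∀ a : ℝ, Continuous fun x : E (m + 1) => ((1 + ‖x‖ ^ 2) ^ a : ℝ) := fun a => wt_cont a
  have hmix := mix hα hv hvc (fun s _ => by
    have := mean_zero hu hc (fun r => Real.exp (-(s * r ^ 2))) (by fun_prop)
    exact this)
  have i1 := int_N hv.continuous hvc (α - 1)
  have i2 := int_N hF.continuous hFc (α - 1)
  have i3 := int_D hv hvc α
  have hVc := gr_cont hu hc
  obtain ⟨R, hR, hRz⟩ := radius hc
  have hVz : ∀ x, R ≤ ‖x‖ → gr u x = 0 := by
    intro x hx
    unfold gr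
    rw [(sa_zero_of hR hRz hx).2, zero_div, zero_smul]
  have i4 : Integrable fun x : E (m + 1) => wt α x * ‖gr u x‖ ^ 2 := by
    refine Continuous.integrable_of_hasCompactSupport ((wt_cont α).mul (hVc.norm.pow 2)) ?_
    refine HasCompactSupport.intro (isCompact_closedBall (0 : E (m + 1)) R) fun x hx => ?_
    rw [mem_closedBall_zero_iff, not_le] at hx
    rw [hVz x hx.le]
    simp
  -- cross terms
  have x1 : ∫ x, wt (α - 1) x * (rad u x * v x) = 0 := by
    have := mean_zero hu hc (fun r => (1 + r ^ 2) ^ (α - 1) * sa u r) (by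
      refine (hwc (α - 1)).mul ?_
      exact hF.continuous)
    rw [← this]
    refine integral_congr_ae (Filter.Eventually.of_forall fun x => ?_)
    show wt (α - 1) x * (rad u x * v x) = (1 + ‖x‖ ^ 2) ^ (α - 1) * sa u ‖x‖ * (u x - rad u x)
    unfold wt rad
    rw [hvdef]
    simp only
    unfold rad
    ring
  have x2 : ∫ x, wt α x * fderiv ℝ v x (gr u x) = 0 :=
    grad_ortho hu hc (fun r => (1 + r ^ 2) ^ α) (hwc α)
  have j1 : Integrable fun x : E (m + 1) => wt (α - 1) x * (rad u x * v x) := by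
    refine Continuous.integrable_of_hasCompactSupport
      ((wt_cont _).mul (hF.continuous.mul hv.continuous)) ?_
    exact HasCompactSupport.mul_left hvc.mul_left
  have j2 : Integrable fun x : E (m + 1) => wt α x * fderiv ℝ v x (gr u x) := by
    refine Continuous.integrable_of_hasCompactSupport
      ((wt_cont _).mul ((hv.continuous_fderiv one_ne_zero).clm_apply hVc)) ?_
    refine HasCompactSupport.mul_left ?_
    refine (hvc.fderiv (𝕜 := ℝ)).mono ?_
    intro x hx
    rw [Function.mem_support] at hx ⊢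
    intro h
    exact hx (by rw [h]; rfl)
  have eN : ∫ x, wt (α - 1) x * u x ^ 2 =
      (∫ x, wt (α - 1) x * v x ^ 2) + ∫ x, wt (α - 1) x * rad u x ^ 2 := by
    have h1 : ∀ x, wt (α - 1) x * u x ^ 2 =
        1 * (1 * (wt (α - 1) x * v x ^ 2) + 1 * (wt (α - 1) x * rad u x ^ 2)) +
          2 * (wt (α - 1) x * (rad u x * v x)) := by
      intro x
      rw [hvdef]
      ring
    simp only [h1]
    rw [lin2 (f := fun x => 1 * (wt (α - 1) x * v x ^ 2) + 1 * (wt (α - 1) x * rad u x ^ 2))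
      ((i1.const_mul 1).add (i2.const_mul 1)) j1, x1, lin2 i1 i2]
    ring
  have eD : ∫ x, wt α x * ‖fderiv ℝ u x‖ ^ 2 =
      (∫ x, wt α x * ‖fderiv ℝ v x‖ ^ 2) + ∫ x, wt α x * ‖gr u x‖ ^ 2 := by
    have h1 : ∀ x, wt α x * ‖fderiv ℝ u x‖ ^ 2 =
        1 * (1 * (wt α x * ‖fderiv ℝ v x‖ ^ 2) + 1 * (wt α x * ‖gr u x‖ ^ 2)) +
          2 * (wt α x * fderiv ℝ v x (gr u x)) := by
      intro x
      have h2 : HasFDerivAt v (fderiv ℝ u x - innerSL ℝ (gr u x)) x :=
        ((hu.differentiable one_ne_zero _).hasFDerivAt).sub (rad_hasFDerivAt hu hc _)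
      have h3 : fderiv ℝ u x = fderiv ℝ v x + innerSL ℝ (gr u x) := by
        rw [h2.fderiv]
        simp
      rw [h3, norm_add_inner]
      ring
    simp only [h1]
    rw [lin2 (f := fun x => 1 * (wt α x * ‖fderiv ℝ v x‖ ^ 2) + 1 * (wt α x * ‖gr u x‖ ^ 2))
      ((i3.const_mul 1).add (i4.const_mul 1)) j2, x2, lin2 i3 i4]
    ring
  -- the radial part
  have hvol : 0 < (volume : Measure (E (m + 1))).real (ball 0 1) := by
    unfold Measure.real
    exact ENNReal.toReal_pos (measure_ball_pos _ _ one_pos).ne' measure_ball_lt_top.ne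
  have hfin : Module.finrank ℝ (E (m + 1)) = m + 1 := by simp
  set c : ℝ := ((m + 1 : ℕ) : ℝ) * (volume : Measure (E (m + 1))).real (ball 0 1) with hcdef
  have hcpos : 0 < c := by positivity
  have conv : ∀ g : ℝ → ℝ, (∀ r, R ≤ r → g r = 0) →
      ∫ x : E (m + 1), g ‖x‖ = c * ∫ r in (0:ℝ)..R, r ^ m * g r := by
    intro g hg
    have h1 := integral_fun_norm_addHaar (volume : Measure (E (m + 1))) g
    rw [hfin] at h1
    simp only [Nat.add_sub_cancel, smul_eq_mul, nsmul_eq_mul] at h1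
    rw [h1, hcdef, mul_assoc]
    congr 2
    rw [intervalIntegral.integral_of_le hR.le]
    refine setIntegral_eq_of_subset_of_forall_sdiff_eq_zero measurableSet_Ioi Ioc_subset_Ioi_self ?_
    intro r hr
    have h2 : R ≤ r := by
      by_contra h
      push Not at h
      exact hr.2 ⟨hr.1, h.le⟩
    rw [hg r h2, mul_zero]
  have r0 : ∫ r in (0 : ℝ)..R, r ^ m * (1 + r ^ 2) ^ (α - 1) * sa u r = 0 := by
    have h1 : ∫ x, wt (α - 1) x * rad u x = 0 := by
      have h2 := mean_zero hu hc (fun r => (1 + r ^ 2) ^ (α - 1)) (hwc (α - 1))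
      have k1 : Integrable fun x => wt (α - 1) x * u x :=
        Continuous.integrable_of_hasCompactSupport ((wt_cont _).mul hu.continuous) hc.mul_left
      have k2 : Integrable fun x => wt (α - 1) x * rad u x :=
        Continuous.integrable_of_hasCompactSupport ((wt_cont _).mul hF.continuous) hFc.mul_left
      have h3 : ∫ x, (wt (α - 1) x * u x - wt (α - 1) x * rad u x) = 0 := by
        rw [← h2]
        refine integral_congr_ae (Filter.Eventually.of_forall fun x => ?_)
        show wt (α - 1) x * u x - wt (α - 1) x * rad u x = (1 + ‖x‖ ^ 2) ^ (α - 1) * (u x - rad u x)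
        unfold wt
        ring
      rw [integral_sub k1 k2, h0] at h3
      linarith
    have h2 := conv (fun r => (1 + r ^ 2) ^ (α - 1) * sa u r) (fun r hr => by
      rw [(sa_zero_of hR hRz hr).1, mul_zero])
    have h3 : ∫ x : E (m + 1), (1 + ‖x‖ ^ 2) ^ (α - 1) * sa u ‖x‖ = 0 := h1
    simp only [h3] at h2
    have h4 := (mul_eq_zero.1 h2.symm).resolve_left hcpos.ne'
    refine Eq.trans (intervalIntegral.integral_congr fun r _ => ?_) h4
    ring
  have hone := oned hA hC hC0 hβ (fun r => sa_hasDerivAt hu hc r) (sa'_cont hu hc) hR r0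
  have hrad : C * ∫ x, wt (α - 1) x * rad u x ^ 2 ≤ ∫ x, wt α x * ‖gr u x‖ ^ 2 := by
    have h1 := conv (fun r => (1 + r ^ 2) ^ (α - 1) * sa u r ^ 2) (fun r hr => by
      rw [(sa_zero_of hR hRz hr).1]; ring)
    have h2 := conv (fun r => (1 + r ^ 2) ^ α * sa' u r ^ 2) (fun r hr => by
      rw [(sa_zero_of hR hRz hr).2]; ring)
    have h3 : ∫ x, wt (α - 1) x * rad u x ^ 2 =
        ∫ x : E (m + 1), (1 + ‖x‖ ^ 2) ^ (α - 1) * sa u ‖x‖ ^ 2 := rfl
    have h4 : ∫ x, wt α x * ‖gr u x‖ ^ 2 = ∫ x : E (m + 1), (1 + ‖x‖ ^ 2) ^ α * sa' u ‖x‖ ^ 2 := by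
      refine integral_congr_ae (Filter.Eventually.of_forall fun x => ?_)
      show wt α x * ‖gr u x‖ ^ 2 = (1 + ‖x‖ ^ 2) ^ α * sa' u ‖x‖ ^ 2
      rw [norm_gr u x (sa'_zero u), sq_abs]
      rfl
    rw [h3, h4, h1, h2]
    have h5 := mul_le_mul_of_nonneg_left hone hcpos.le
    have e1 : ∫ r in (0:ℝ)..R, r ^ m * (1 + r ^ 2) ^ (α - 1) * sa u r ^ 2 =
        ∫ r in (0:ℝ)..R, r ^ m * ((1 + r ^ 2) ^ (α - 1) * sa u r ^ 2) :=
      intervalIntegral.integral_congr fun r _ => by ring
    have e2 : ∫ r in (0:ℝ)..R, r ^ m * (1 + r ^ 2) ^ α * sa' u r ^ 2 =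
        ∫ r in (0:ℝ)..R, r ^ m * ((1 + r ^ 2) ^ α * sa' u r ^ 2) :=
      intervalIntegral.integral_congr fun r _ => by ring
    rw [e1, e2] at h5
    linarith
  have n1 : 0 ≤ ∫ x, wt (α - 1) x * v x ^ 2 :=
    integral_nonneg fun x => mul_nonneg (wt_pos _ x).le (sq_nonneg _)
  have n2 : 0 ≤ ∫ x, wt (α - 1) x * rad u x ^ 2 :=
    integral_nonneg fun x => mul_nonneg (wt_pos _ x).le (sq_nonneg _)
  rw [eN, eD, mul_add]
  have a1 := mul_le_mul_of_nonneg_right (min_le_right C (-2 * α)) n1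
  have a2 := mul_le_mul_of_nonneg_right (min_le_left C (-2 * α)) n2
  linarith

end Pool.Agent.T6.H44.Hardy
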