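import Mathlib
import Pool.Agent.T6.H44.Hardy.Low

set_option autoImplicit false

open MeasureTheory Set Metric Filter Topology
open scoped ContDiff

namespace Pool.Agent.T6.H44.Hardy

variable {n : ℕ}

/-- the basic bump -/
noncomputable def bump (n : ℕ) : ContDiffBump (0 : E n) := ⟨1, 2, one_pos, one_lt_two⟩

/-- cut-off functions -/
noncomputable def chi (k : ℕ) (x : E n) : ℝ := bump n (((k : ℝ) + 1)⁻¹ • x)

theorem kpos (k : ℕ) : (0 : ℝ) < (k : ℝ) + 1 := by positivity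

theorem chi_contDiff (k : ℕ) : ContDiff ℝ ∞ (chi (n := n) k) := by
  have h : ContDiff ℝ ∞ (fun x : E n => ((k : ℝ) + 1)⁻¹ • x) :=
    (((k : ℝ) + 1)⁻¹ • ContinuousLinearMap.id ℝ (E n)).contDiff
  exact (bump n).contDiff.comp h

theorem chi_zero (k : ℕ) {x : E n} (hx : 2 * ((k : ℝ) + 1) ≤ ‖x‖) : chi k x = 0 := by
  unfold chi
  refine (bump n).zero_of_le_dist ?_
  rw [dist_zero_right, norm_smul, norm_inv, Real.norm_of_nonneg (kpos k).le]
  show 2 ≤ _
  rw [le_inv_mul_iff₀ (kpos k)]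
  linarith

theorem chi_one (k : ℕ) {x : E n} (hx : ‖x‖ ≤ (k : ℝ) + 1) : chi k x = 1 := by
  unfold chi
  refine (bump n).one_of_mem_closedBall ?_
  rw [mem_closedBall_zero_iff, norm_smul, norm_inv, Real.norm_of_nonneg (kpos k).le]
  show _ ≤ (1 : ℝ)
  rw [inv_mul_le_iff₀ (kpos k)]
  linarith

theorem chi_nonneg (k : ℕ) (x : E n) : 0 ≤ chi k x := (bump n).nonneg

theorem chi_le (k : ℕ) (x : E n) : chi k x ≤ 1 := (bump n).le_one

theorem chi_compact (k : ℕ) : HasCompactSupport (chi (n := n) k) := by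
  refine HasCompactSupport.intro (isCompact_closedBall (0 : E n) (2 * ((k : ℝ) + 1))) fun x hx => ?_
  rw [mem_closedBall_zero_iff, not_le] at hx
  exact chi_zero k hx.le

theorem chi_even (k : ℕ) (x : E n) : chi k (-x) = chi k x := by
  unfold chi
  rw [smul_neg]
  exact (bump n).neg _

theorem chi_ev (x : E n) : ∀ᶠ k : ℕ in atTop, chi k x = 1 ∧ fderiv ℝ (chi k) x = 0 := by
  obtain ⟨N, hN⟩ := exists_nat_gt ‖x‖
  filter_upwards [eventually_ge_atTop N] with k hk
  have h1 : ‖x‖ < (k : ℝ) + 1 := by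
    have : (N : ℝ) ≤ k := by exact_mod_cast hk
    linarith
  refine ⟨chi_one k h1.le, ?_⟩
  have h2 : chi (n := n) k =ᶠ[𝓝 x] fun _ => 1 := by
    have : ∀ᶠ y in 𝓝 x, ‖y‖ < (k : ℝ) + 1 := continuous_norm.continuousAt.eventually_lt
      continuousAt_const h1
    filter_upwards [this] with y hy
    exact chi_one k hy.le
  rw [h2.fderiv_eq]
  simp

theorem chi_deriv : ∃ C : ℝ, 0 ≤ C ∧ ∀ (k : ℕ) (x : E n),
    ‖fderiv ℝ (chi k) x‖ ^ 2 * (1 + ‖x‖ ^ 2) ≤ C := by
  have hb : ContDiff ℝ 1 (bump n : E n → ℝ) := (bump n).contDiff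
  obtain ⟨B, hB⟩ := ((bump n).hasCompactSupport.fderiv (𝕜 := ℝ)).exists_bound_of_continuous
    (hb.continuous_fderiv one_ne_zero)
  have hB0 : 0 ≤ B := (norm_nonneg _).trans (hB 0)
  refine ⟨5 * B ^ 2, by positivity, fun k x => ?_⟩
  have hk := kpos k
  have hk1 : (1 : ℝ) ≤ (k : ℝ) + 1 := by
    have : (0 : ℝ) ≤ k := Nat.cast_nonneg k
    linarith
  by_cases hx : 2 * ((k : ℝ) + 1) < ‖x‖
  · have h2 : chi (n := n) k =ᶠ[𝓝 x] fun _ => 0 := by
      have : ∀ᶠ y in 𝓝 x, 2 * ((k : ℝ) + 1) < ‖y‖ := continuousAt_const.eventually_lt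
        continuous_norm.continuousAt hx
      filter_upwards [this] with y hy
      exact chi_zero k hy.le
    rw [h2.fderiv_eq]
    simp
    positivity
  · push Not at hx
    have h1 : HasFDerivAt (chi (n := n) k)
        ((fderiv ℝ (bump n : E n → ℝ) (((k : ℝ) + 1)⁻¹ • x)).comp
          (((k : ℝ) + 1)⁻¹ • ContinuousLinearMap.id ℝ (E n))) x := by
      have a1 : HasFDerivAt (bump n : E n → ℝ) (fderiv ℝ (bump n : E n → ℝ) (((k : ℝ) + 1)⁻¹ • x))
          (((k : ℝ) + 1)⁻¹ • x) := (hb.differentiable one_ne_zero _).hasFDerivAt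
      have a2 : HasFDerivAt (fun x : E n => ((k : ℝ) + 1)⁻¹ • x)
          (((k : ℝ) + 1)⁻¹ • ContinuousLinearMap.id ℝ (E n)) x :=
        (((k : ℝ) + 1)⁻¹ • ContinuousLinearMap.id ℝ (E n)).hasFDerivAt
      exact a1.comp x a2
    have h3 : ‖fderiv ℝ (chi k) x‖ ≤ B * ((k : ℝ) + 1)⁻¹ := by
      rw [h1.fderiv]
      refine (ContinuousLinearMap.opNorm_comp_le _ _).trans ?_
      refine mul_le_mul (hB _) ?_ (norm_nonneg _) hB0
      rw [norm_smul, norm_inv, Real.norm_of_nonneg hk.le]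
      exact mul_le_of_le_one_right (inv_nonneg.2 hk.le) ContinuousLinearMap.norm_id_le
    have h4 : ‖x‖ ^ 2 ≤ (2 * ((k : ℝ) + 1)) ^ 2 := pow_le_pow_left₀ (norm_nonneg _) hx 2
    have h5 : ‖fderiv ℝ (chi k) x‖ ^ 2 ≤ (B * ((k : ℝ) + 1)⁻¹) ^ 2 :=
      pow_le_pow_left₀ (norm_nonneg _) h3 2
    have h6 : 1 + ‖x‖ ^ 2 ≤ 5 * ((k : ℝ) + 1) ^ 2 := by nlinarith
    calc ‖fderiv ℝ (chi k) x‖ ^ 2 * (1 + ‖x‖ ^ 2)
        ≤ (B * ((k : ℝ) + 1)⁻¹) ^ 2 * (5 * ((k : ℝ) + 1) ^ 2) := by gcongr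
      _ = 5 * B ^ 2 := by field_simp

/-- the truncated functions -/
noncomputable def tr (φ : E n → ℝ) (μ : ℕ → ℝ) (k : ℕ) (x : E n) : ℝ := chi k x * (φ x - μ k)

theorem tr_contDiff {φ : E n → ℝ} (hφ : ContDiff ℝ ∞ φ) (μ : ℕ → ℝ) (k : ℕ) :
    ContDiff ℝ ∞ (tr φ μ k) := (chi_contDiff k).mul (hφ.sub contDiff_const)

theorem tr_compact (φ : E n → ℝ) (μ : ℕ → ℝ) (k : ℕ) : HasCompactSupport (tr φ μ k) :=
  (chi_compact k).mul_right

theorem tr_fderiv {φ : E n → ℝ} (hφ : ContDiff ℝ ∞ φ) (μ : ℕ → ℝ) (k : ℕ) (x : E n) :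
    fderiv ℝ (tr φ μ k) x = chi k x • fderiv ℝ φ x + (φ x - μ k) • fderiv ℝ (chi k) x := by
  have a1 : HasFDerivAt (chi (n := n) k) (fderiv ℝ (chi k) x) x :=
    ((chi_contDiff k).differentiable (by simp) x).hasFDerivAt
  have a2 : HasFDerivAt φ (fderiv ℝ φ x) x := (hφ.differentiable (by simp) x).hasFDerivAt
  have a3 : HasFDerivAt (tr φ μ k) _ x := a1.mul (a2.sub_const (μ k))
  exact a3.fderiv

/-- convergence of the quadratic forms of truncated functions -/
theorem tr_lim {α M : ℝ} {φ : E n → ℝ} (hφ : ContDiff ℝ ∞ φ) {μ : ℕ → ℝ}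
    (hμ : Tendsto μ atTop (𝓝 0)) (hM : ∀ k, |μ k| ≤ M)
    (h1 : Integrable fun x => wt (α - 1) x * (|φ x| + M) ^ 2)
    (h2 : Integrable fun x => wt α x * ‖fderiv ℝ φ x‖ ^ 2) :
    Tendsto (fun k => ∫ x, wt α x * ‖fderiv ℝ (tr φ μ k) x‖ ^ 2) atTop
      (𝓝 (∫ x, wt α x * ‖fderiv ℝ φ x‖ ^ 2)) ∧
    Tendsto (fun k => ∫ x, wt (α - 1) x * tr φ μ k x ^ 2) atTop
      (𝓝 (∫ x, wt (α - 1) x * φ x ^ 2)) := by
  obtain ⟨C, hC0, hC⟩ := chi_deriv (n := n)
  have hab : ∀ k x, |φ x - μ k| ≤ |φ x| + M := fun k x =>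
    (abs_sub _ _).trans (add_le_add le_rfl (hM k))
  constructor
  · refine tendsto_integral_of_dominated_convergence
      (fun x => 2 * (wt α x * ‖fderiv ℝ φ x‖ ^ 2) + 2 * C * (wt (α - 1) x * (|φ x| + M) ^ 2)) ?_ ?_ ?_ ?_
    · intro k
      exact ((wt_cont α).mul ((((tr_contDiff hφ μ k).continuous_fderiv (by simp)).norm).pow 2)).aestronglyMeasurable
    · exact (h2.const_mul 2).add (h1.const_mul (2 * C))
    · intro k
      refine Filter.Eventually.of_forall fun x => ?_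
      rw [Real.norm_of_nonneg (mul_nonneg (wt_pos _ x).le (sq_nonneg _)), tr_fderiv hφ]
      have b1 : ‖chi k x • fderiv ℝ φ x + (φ x - μ k) • fderiv ℝ (chi k) x‖ ≤
          ‖fderiv ℝ φ x‖ + (|φ x| + M) * ‖fderiv ℝ (chi k) x‖ := by
        refine (norm_add_le _ _).trans (add_le_add ?_ ?_)
        · rw [norm_smul, Real.norm_of_nonneg (chi_nonneg k x)]
          exact mul_le_of_le_one_left (norm_nonneg _) (chi_le k x)
        · rw [norm_smul, Real.norm_eq_abs]
          exact mul_le_mul_of_nonneg_right (hab k x) (norm_nonneg _)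
      have b2 : ‖chi k x • fderiv ℝ φ x + (φ x - μ k) • fderiv ℝ (chi k) x‖ ^ 2 ≤
          2 * ‖fderiv ℝ φ x‖ ^ 2 + 2 * ((|φ x| + M) ^ 2 * ‖fderiv ℝ (chi k) x‖ ^ 2) := by
        refine (pow_le_pow_left₀ (norm_nonneg _) b1 2).trans ?_
        nlinarith [sq_nonneg (‖fderiv ℝ φ x‖ - (|φ x| + M) * ‖fderiv ℝ (chi k) x‖)]
      have b3 := mul_le_mul_of_nonneg_left b2 (wt_pos α x).le
      refine b3.trans ?_
      have b4 := hC k x
      have b5 : wt α x * (2 * ((|φ x| + M) ^ 2 * ‖fderiv ℝ (chi k) x‖ ^ 2)) =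
          2 * (wt (α - 1) x * (|φ x| + M) ^ 2) * (‖fderiv ℝ (chi k) x‖ ^ 2 * (1 + ‖x‖ ^ 2)) := by
        rw [wt_succ α x]; ring
      have b6 : 0 ≤ 2 * (wt (α - 1) x * (|φ x| + M) ^ 2) := by
        have := (wt_pos (α - 1) x).le
        positivity
      have b7 := mul_le_mul_of_nonneg_left b4 b6
      rw [mul_add, b5]
      nlinarith
    · refine Filter.Eventually.of_forall fun x => ?_
      refine tendsto_const_nhds.congr' ?_
      filter_upwards [chi_ev x] with k hk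
      rw [tr_fderiv hφ, hk.1, hk.2, one_smul, smul_zero, add_zero]
  · refine tendsto_integral_of_dominated_convergence
      (fun x => wt (α - 1) x * (|φ x| + M) ^ 2) ?_ h1 ?_ ?_
    · intro k
      exact ((wt_cont (α - 1)).mul ((tr_contDiff hφ μ k).continuous.pow 2)).aestronglyMeasurable
    · intro k
      refine Filter.Eventually.of_forall fun x => ?_
      rw [Real.norm_of_nonneg (mul_nonneg (wt_pos _ x).le (sq_nonneg _))]
      refine mul_le_mul_of_nonneg_left ?_ (wt_pos _ x).le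
      rw [← sq_abs (tr φ μ k x)]
      refine pow_le_pow_left₀ (abs_nonneg _) ?_ 2
      unfold tr
      rw [abs_mul, abs_of_nonneg (chi_nonneg k x)]
      exact (mul_le_of_le_one_left (abs_nonneg _) (chi_le k x)).trans (hab k x)
    · refine Filter.Eventually.of_forall fun x => ?_
      have c1 : Tendsto (fun k => φ x - μ k) atTop (𝓝 (φ x)) := by
        simpa using tendsto_const_nhds.sub hμ
      have c2 : Tendsto (fun k => tr φ μ k x) atTop (𝓝 (φ x)) := by
        refine c1.congr' ?_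
        filter_upwards [chi_ev x] with k hk
        unfold tr
        rw [hk.1, one_mul]
      exact (c2.pow 2).const_mul _

/-- the moments -/
noncomputable def J (n : ℕ) (a : ℝ) : ℝ := ∫ x : E n, wt (-a) x

theorem J_int {a : ℝ} (ha : (n : ℝ) < 2 * a) : Integrable fun x : E n => wt (-a) x := by
  have := integrable_rpow_neg_one_add_norm_sq (E := E n) (μ := volume) (r := 2 * a) (by simpa using ha)
  refine this.congr (Filter.Eventually.of_forall fun x => ?_)
  unfold wt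
  simp only
  congr 1
  ring

theorem J_pos {a : ℝ} (ha : (n : ℝ) < 2 * a) : 0 < J n a := by
  unfold J
  rw [integral_pos_iff_support_of_nonneg (fun x => (wt_pos _ x).le) (J_int ha)]
  have : Function.support (fun x : E n => wt (-a) x) = univ := by
    ext x
    simp [(wt_pos (-a) x).ne']
  rw [this]
  exact isOpen_univ.measure_pos volume univ_nonempty

theorem J_anti {a b : ℝ} (ha : (n : ℝ) < 2 * a) (hab : a ≤ b) : J n b ≤ J n a := by
  unfold J
  refine integral_mono (J_int (by linarith)) (J_int ha) fun x => ?_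
  exact Real.rpow_le_rpow_of_exponent_le (by nlinarith [sq_nonneg ‖x‖]) (by linarith)

/-- the recurrence of the moments -/
theorem J_rec {a : ℝ} (ha : (n : ℝ) < 2 * a) : 2 * a * J n (a + 1) = (2 * a - n) * J n a := by
  obtain ⟨C, hC0, hC⟩ := chi_deriv (n := n)
  have i1 := J_int ha
  have i2 : Integrable fun x : E n => wt (-(a + 1)) x := J_int (by linarith)
  have t1 : Tendsto (fun k : ℕ => ∫ x, wt (-a) x * fderiv ℝ (chi (n := n) k) x x) atTop
      (𝓝 (∫ _x : E n, (0 : ℝ))) := by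
    refine tendsto_integral_of_dominated_convergence (fun x => (C + 1) * wt (-a) x) ?_
      (i1.const_mul _) ?_ ?_
    · intro k
      exact ((wt_cont _).mul (((chi_contDiff k).continuous_fderiv (by simp)).clm_apply
        continuous_id)).aestronglyMeasurable
    · intro k
      refine Filter.Eventually.of_forall fun x => ?_
      rw [norm_mul, Real.norm_of_nonneg (wt_pos _ x).le, mul_comm]
      refine mul_le_mul_of_nonneg_right ?_ (wt_pos _ x).le
      have h1 := (fderiv ℝ (chi (n := n) k) x).le_opNorm x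
      have h2 := hC k x
      have h3 : (‖fderiv ℝ (chi (n := n) k) x‖ * ‖x‖) ^ 2 ≤ C := by
        nlinarith [sq_nonneg ‖fderiv ℝ (chi (n := n) k) x‖]
      have h4 : 0 ≤ ‖fderiv ℝ (chi (n := n) k) x‖ * ‖x‖ := by positivity
      refine h1.trans ?_
      nlinarith [sq_nonneg (‖fderiv ℝ (chi (n := n) k) x‖ * ‖x‖ - 1)]
    · refine Filter.Eventually.of_forall fun x => ?_
      refine tendsto_const_nhds.congr' ?_
      filter_upwards [chi_ev x] with k hk
      rw [hk.2]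
      simp
  have i3 : Integrable fun x : E n => (n : ℝ) * wt (-a) x + 2 * (-a) * (‖x‖ ^ 2 * wt (-a - 1) x) := by
    have : (fun x : E n => (n : ℝ) * wt (-a) x + 2 * (-a) * (‖x‖ ^ 2 * wt (-a - 1) x)) =
        fun x => ((n : ℝ) + 2 * (-a)) * wt (-a) x + (2 * a) * wt (-(a + 1)) x := by
      funext x
      rw [sq_wt, show -(a + 1) = -a - 1 by ring]
      ring
    rw [this]
    exact (i1.const_mul _).add (i2.const_mul _)
  have t2 : Tendsto (fun k : ℕ => -∫ x, chi (n := n) k x *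
      ((n : ℝ) * wt (-a) x + 2 * (-a) * (‖x‖ ^ 2 * wt (-a - 1) x))) atTop
      (𝓝 (-∫ x : E n, ((n : ℝ) * wt (-a) x + 2 * (-a) * (‖x‖ ^ 2 * wt (-a - 1) x)))) := by
    refine Tendsto.neg ?_
    refine tendsto_integral_of_dominated_convergence
      (fun x => ‖(n : ℝ) * wt (-a) x + 2 * (-a) * (‖x‖ ^ 2 * wt (-a - 1) x)‖) ?_ i3.norm ?_ ?_
    · intro k
      exact ((chi_contDiff k).continuous.aestronglyMeasurable).mul i3.aestronglyMeasurable
    · intro k
      refine Filter.Eventually.of_forall fun x => ?_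
      rw [norm_mul, Real.norm_of_nonneg (chi_nonneg k x)]
      exact mul_le_of_le_one_left (norm_nonneg _) (chi_le k x)
    · refine Filter.Eventually.of_forall fun x => ?_
      refine tendsto_const_nhds.congr' ?_
      filter_upwards [chi_ev x] with k hk
      rw [hk.1, one_mul]
  have h : ∀ k : ℕ, ∫ x, wt (-a) x * fderiv ℝ (chi (n := n) k) x x =
      -∫ x, chi (n := n) k x * ((n : ℝ) * wt (-a) x + 2 * (-a) * (‖x‖ ^ 2 * wt (-a - 1) x)) :=
    fun k => weuler ((chi_contDiff k).of_le (by simp)) (chi_compact k) (-a)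
  simp only [h] at t1
  have e := tendsto_nhds_unique t1 t2
  rw [integral_zero] at e
  have e2 : ∫ x : E n, ((n : ℝ) * wt (-a) x + 2 * (-a) * (‖x‖ ^ 2 * wt (-a - 1) x)) =
      ((n : ℝ) + 2 * (-a)) * J n a + (2 * a) * J n (a + 1) := by
    unfold J
    rw [← lin2 i1 i2]
    refine integral_congr_ae (Filter.Eventually.of_forall fun x => ?_)
    show (n : ℝ) * wt (-a) x + 2 * (-a) * (‖x‖ ^ 2 * wt (-a - 1) x) =
      ((n : ℝ) + 2 * (-a)) * wt (-a) x + 2 * a * wt (-(a + 1)) x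
    rw [sq_wt, show -(a + 1) = -a - 1 by ring]
    ring
  rw [e2] at e
  linarith

end Pool.Agent.T6.H44.Hardy
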