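import Mathlib
import Pool.Agent.T6.H44.Hardy.Up

set_option autoImplicit false

open MeasureTheory Set Metric Filter Topology
open scoped ContDiff

namespace Pool.Agent.T6.H44.Hardy

variable {n : ℕ}

/-- `c` is a lower bound, no constraint -/
def LBu (n : ℕ) (α c : ℝ) : Prop :=
  ∀ u : E n → ℝ, ContDiff ℝ ∞ u → HasCompactSupport u →
    c * ∫ x, wt (α - 1) x * u x ^ 2 ≤ ∫ x, wt α x * ‖fderiv ℝ u x‖ ^ 2

/-- `c` is a lower bound under the constraint -/
def LBc (n : ℕ) (α c : ℝ) : Prop :=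
  ∀ u : E n → ℝ, ContDiff ℝ ∞ u → HasCompactSupport u → ∫ x, wt (α - 1) x * u x = 0 →
    c * ∫ x, wt (α - 1) x * u x ^ 2 ≤ ∫ x, wt α x * ‖fderiv ℝ u x‖ ^ 2

theorem up_u {α c : ℝ} (h : LBu n α c) {φ : E n → ℝ} (hφ : ContDiff ℝ ∞ φ)
    (h1 : Integrable fun x => wt (α - 1) x * φ x ^ 2)
    (h2 : Integrable fun x => wt α x * ‖fderiv ℝ φ x‖ ^ 2) :
    c * ∫ x, wt (α - 1) x * φ x ^ 2 ≤ ∫ x, wt α x * ‖fderiv ℝ φ x‖ ^ 2 := by
  have h1' : Integrable fun x => wt (α - 1) x * (|φ x| + 0) ^ 2 := by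
    refine h1.congr (Filter.Eventually.of_forall fun x => ?_)
    simp
  obtain ⟨t1, t2⟩ := tr_lim (μ := fun _ => 0) hφ tendsto_const_nhds (fun k => by simp) h1' h2
  exact le_of_tendsto_of_tendsto' (t2.const_mul c) t1 fun k =>
    h _ (tr_contDiff hφ _ k) (tr_compact _ _ k)

theorem up_c {α c : ℝ} (h : LBc n α c) {φ : E n → ℝ} (hφ : ContDiff ℝ ∞ φ)
    (h0 : Integrable fun x : E n => wt (α - 1) x)
    (h1 : Integrable fun x => wt (α - 1) x * φ x ^ 2)
    (h2 : Integrable fun x => wt α x * ‖fderiv ℝ φ x‖ ^ 2)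
    (h3 : ∫ x, wt (α - 1) x * φ x = 0) :
    c * ∫ x, wt (α - 1) x * φ x ^ 2 ≤ ∫ x, wt α x * ‖fderiv ℝ φ x‖ ^ 2 := by
  have h4 : Integrable fun x => wt (α - 1) x * φ x := by
    refine (h0.add h1).mono' ((wt_cont _).mul hφ.continuous).aestronglyMeasurable
      (Filter.Eventually.of_forall fun x => ?_)
    rw [norm_mul, Real.norm_of_nonneg (wt_pos _ x).le, Real.norm_eq_abs]
    show wt (α - 1) x * |φ x| ≤ wt (α - 1) x + wt (α - 1) x * φ x ^ 2
    have h5 : |φ x| ≤ 1 + φ x ^ 2 := by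
      rw [← sq_abs (φ x)]
      nlinarith [sq_nonneg (|φ x| - 1), abs_nonneg (φ x)]
    have := mul_le_mul_of_nonneg_left h5 (wt_pos (α - 1) x).le
    linarith
  set P : ℕ → ℝ := fun k => ∫ x, chi (n := n) k x * wt (α - 1) x with hP
  set Q : ℕ → ℝ := fun k => ∫ x, chi (n := n) k x * (wt (α - 1) x * φ x) with hQ
  have hPpos : ∀ k, 0 < P k := by
    intro k
    refine Continuous.integral_pos_of_hasCompactSupport_nonneg_nonzero (x := 0)
      ((chi_contDiff k).continuous.mul (wt_cont _)) ((chi_compact k).mul_right) ?_ ?_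
    · intro x
      exact mul_nonneg (chi_nonneg k x) (wt_pos _ x).le
    · rw [chi_one k (by rw [norm_zero]; exact (kpos k).le), one_mul]
      exact (wt_pos _ _).ne'
  have lim : ∀ g : E n → ℝ, Integrable g →
      Tendsto (fun k => ∫ x, chi (n := n) k x * g x) atTop (𝓝 (∫ x, g x)) := by
    intro g hg
    refine tendsto_integral_of_dominated_convergence (fun x => ‖g x‖) ?_ hg.norm ?_ ?_
    · intro k
      exact ((chi_contDiff k).continuous.aestronglyMeasurable).mul hg.aestronglyMeasurable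
    · intro k
      refine Filter.Eventually.of_forall fun x => ?_
      rw [norm_mul, Real.norm_of_nonneg (chi_nonneg k x)]
      exact mul_le_of_le_one_left (norm_nonneg _) (chi_le k x)
    · refine Filter.Eventually.of_forall fun x => ?_
      refine tendsto_const_nhds.congr' ?_
      filter_upwards [chi_ev x] with k hk
      rw [hk.1, one_mul]
  have hPlim := lim _ h0
  have hQlim := lim _ h4
  rw [h3] at hQlim
  have hPinf : 0 < ∫ x : E n, wt (α - 1) x := by
    rw [integral_pos_iff_support_of_nonneg (fun x => (wt_pos _ x).le) h0]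
    have : Function.support (fun x : E n => wt (α - 1) x) = univ := by
      ext x
      simp [(wt_pos (α - 1) x).ne']
    rw [this]
    exact isOpen_univ.measure_pos volume univ_nonempty
  set μ : ℕ → ℝ := fun k => Q k / P k with hμ
  have hμlim : Tendsto μ atTop (𝓝 0) := by
    have := hQlim.div hPlim hPinf.ne'
    rwa [zero_div] at this
  obtain ⟨M, hM⟩ := hμlim.norm.bddAbove_range
  have hM' : ∀ k, |μ k| ≤ M := fun k => hM ⟨k, rfl⟩
  have h1' : Integrable fun x => wt (α - 1) x * (|φ x| + M) ^ 2 := by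
    refine ((h1.const_mul 2).add (h0.const_mul (2 * M ^ 2))).mono'
      ((wt_cont _).mul ((hφ.continuous.abs.add continuous_const).pow 2)).aestronglyMeasurable
      (Filter.Eventually.of_forall fun x => ?_)
    rw [Real.norm_of_nonneg (mul_nonneg (wt_pos _ x).le (sq_nonneg _))]
    show wt (α - 1) x * (|φ x| + M) ^ 2 ≤ 2 * (wt (α - 1) x * φ x ^ 2) + 2 * M ^ 2 * wt (α - 1) x
    have h5 : (|φ x| + M) ^ 2 ≤ 2 * φ x ^ 2 + 2 * M ^ 2 := by
      rw [← sq_abs (φ x)]
      nlinarith [sq_nonneg (|φ x| - M)]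
    have := mul_le_mul_of_nonneg_left h5 (wt_pos (α - 1) x).le
    linarith
  obtain ⟨t1, t2⟩ := tr_lim hφ hμlim hM' h1' h2
  refine le_of_tendsto_of_tendsto' (t2.const_mul c) t1 fun k =>
    h _ (tr_contDiff hφ _ k) (tr_compact _ _ k) ?_
  have i1 : Integrable fun x => chi (n := n) k x * wt (α - 1) x :=
    Continuous.integrable_of_hasCompactSupport ((chi_contDiff k).continuous.mul (wt_cont _))
      (chi_compact k).mul_right
  have i2 : Integrable fun x => chi (n := n) k x * (wt (α - 1) x * φ x) :=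
    Continuous.integrable_of_hasCompactSupport ((chi_contDiff k).continuous.mul
      ((wt_cont _).mul hφ.continuous)) (chi_compact k).mul_right
  have e : ∫ x, wt (α - 1) x * tr φ μ k x = 1 * Q k + (-μ k) * P k := by
    rw [← lin2 i2 i1]
    refine integral_congr_ae (Filter.Eventually.of_forall fun x => ?_)
    show wt (α - 1) x * tr φ μ k x = 1 * (chi k x * (wt (α - 1) x * φ x)) + -μ k * (chi k x * wt (α - 1) x)
    unfold tr
    ring
  rw [e]
  have : μ k * P k = Q k := div_mul_cancel₀ _ (hPpos k).ne'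
  linarith

/-! ### the test functions `(1 + |x|²) ^ (-γ) - μ` -/

theorem fam_fderiv (γ μ : ℝ) (x : E n) :
    fderiv ℝ (fun y : E n => wt (-γ) y - μ) x = (2 * (-γ) * wt (-γ - 1) x) • innerSL ℝ x :=
  ((wt_hasFDerivAt (-γ) x).sub_const μ).fderiv

theorem fam_D (α γ μ : ℝ) (x : E n) :
    wt α x * ‖fderiv ℝ (fun y : E n => wt (-γ) y - μ) x‖ ^ 2 =
      4 * γ ^ 2 * wt (-(2 * γ + 1 - α)) x + (-(4 * γ ^ 2)) * wt (-(2 * γ + 1 - α + 1)) x := by
  rw [fam_fderiv, norm_smul, innerSL_apply_norm, mul_pow, Real.norm_eq_abs, sq_abs]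
  have h1 : wt (-γ - 1) x ^ 2 = wt (-2 * γ - 2) x := by
    rw [sq, wt_add]
    congr 1
    ring
  have h2 : wt α x * wt (-2 * γ - 2) x = wt (-(2 * γ + 1 - α + 1)) x := by
    rw [wt_add]
    congr 1
    ring
  have h3 := sq_wt (-(2 * γ + 1 - α)) x
  rw [show -(2 * γ + 1 - α) - 1 = -(2 * γ + 1 - α + 1) by ring] at h3
  calc wt α x * ((2 * -γ * wt (-γ - 1) x) ^ 2 * ‖x‖ ^ 2)
      = 4 * γ ^ 2 * (‖x‖ ^ 2 * (wt α x * wt (-γ - 1) x ^ 2)) := by ring
    _ = _ := by
      rw [h1, h2, h3]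
      ring

theorem fam_N (α γ μ : ℝ) (x : E n) :
    wt (α - 1) x * (wt (-γ) x - μ) ^ 2 =
      wt (-(2 * γ + 1 - α)) x + (1 * (-(2 * μ) * wt (-(γ + 1 - α)) x) + 1 * (μ ^ 2 * wt (-(1 - α)) x)) := by
  have h1 : wt (α - 1) x * (wt (-γ) x * wt (-γ) x) = wt (-(2 * γ + 1 - α)) x := by
    rw [wt_add, wt_add]
    congr 1
    ring
  have h2 : wt (α - 1) x * wt (-γ) x = wt (-(γ + 1 - α)) x := by
    rw [wt_add]
    congr 1
    ring
  have h3 : wt (α - 1) x = wt (-(1 - α)) x := by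
    congr 1
    ring
  rw [← h1, ← h2, ← h3]
  ring

theorem fam_smooth (γ μ : ℝ) : ContDiff ℝ ∞ fun y : E n => wt (-γ) y - μ :=
  (wt_contDiff _).sub contDiff_const

/-- consequence of the recurrence -/
theorem J_diff {a : ℝ} (ha : (n : ℝ) < 2 * a) (ha0 : 0 < a) :
    J n a - J n (a + 1) = n / (2 * a) * J n a := by
  have h := J_rec ha
  have : J n (a + 1) = (2 * a - n) * J n a / (2 * a) := by
    rw [eq_div_iff (by positivity)]
    linarith
  rw [this]
  field_simp
  ring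

theorem a_pos {a : ℝ} (ha : (n : ℝ) < 2 * a) : 0 < a := by
  have : (0 : ℝ) ≤ n := Nat.cast_nonneg n
  linarith

theorem lb_u {α c : ℝ} (h : LBu n α c) {γ : ℝ} (hγ : (n : ℝ) < 2 * (2 * γ + 1 - α)) :
    c ≤ 4 * γ ^ 2 * (n / (2 * (2 * γ + 1 - α))) := by
  have ha0 := a_pos hγ
  set a := 2 * γ + 1 - α with ha
  have i1 := J_int hγ
  have i2 : Integrable fun x : E n => wt (-(a + 1)) x := J_int (by linarith)
  have hN : ∀ x : E n, wt (α - 1) x * (wt (-γ) x - 0) ^ 2 = wt (-a) x := by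
    intro x
    rw [fam_N]
    simp [ha]
  have hD := fam_D (n := n) α γ 0
  rw [← ha] at hD
  have key := up_u h (fam_smooth γ 0) (by simpa only [hN] using i1) (by
    simp only [hD]
    exact (i1.const_mul _).add (i2.const_mul _))
  simp only [hN, hD] at key
  rw [lin2 i1 i2] at key
  have e1 : ∫ x : E n, wt (-a) x = J n a := rfl
  have e2 : ∫ x : E n, wt (-(a + 1)) x = J n (a + 1) := rfl
  rw [e1, e2] at key
  have hJ := J_pos hγ
  have hd := J_diff hγ ha0
  have : c * J n a ≤ (4 * γ ^ 2 * (n / (2 * a))) * J n a := by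
    calc c * J n a ≤ 4 * γ ^ 2 * (J n a - J n (a + 1)) := by linarith
      _ = _ := by rw [hd]; ring
  exact le_of_mul_le_mul_right this hJ

theorem lb_c {α c : ℝ} (h : LBc n α c) (hα : (n : ℝ) < 2 * (1 - α)) {γ : ℝ}
    (hγ : (n : ℝ) < 2 * (2 * γ + 1 - α)) :
    c * (J n (2 * γ + 1 - α) - J n (γ + 1 - α) ^ 2 / J n (1 - α)) ≤
      4 * γ ^ 2 * (n / (2 * (2 * γ + 1 - α))) * J n (2 * γ + 1 - α) := by
  have ha0 := a_pos hγ
  set a := 2 * γ + 1 - α with ha
  have hb : (n : ℝ) < 2 * (γ + 1 - α) := by linarith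
  have i1 := J_int hγ
  have i2 : Integrable fun x : E n => wt (-(a + 1)) x := J_int (by linarith)
  have i3 := J_int hb
  have i4 := J_int hα
  have hP := J_pos hα
  set μ := J n (γ + 1 - α) / J n (1 - α) with hμ
  have hN : ∀ x : E n, wt (α - 1) x * (wt (-γ) x - μ) ^ 2 = 1 * wt (-a) x +
      1 * (-(2 * μ) * wt (-(γ + 1 - α)) x + μ ^ 2 * wt (-(1 - α)) x) := by
    intro x
    rw [fam_N, ← ha]
    ring
  have hD := fam_D (n := n) α γ μ
  rw [← ha] at hD
  have e1 : ∫ x : E n, wt (-a) x = J n a := rfl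
  have e2 : ∫ x : E n, wt (-(a + 1)) x = J n (a + 1) := rfl
  have e3 : ∫ x : E n, wt (-(γ + 1 - α)) x = J n (γ + 1 - α) := rfl
  have e4 : ∫ x : E n, wt (-(1 - α)) x = J n (1 - α) := rfl
  have hint : Integrable fun x : E n => -(2 * μ) * wt (-(γ + 1 - α)) x + μ ^ 2 * wt (-(1 - α)) x :=
    (i3.const_mul _).add (i4.const_mul _)
  have hα1 : (fun x : E n => wt (α - 1) x) = fun x => wt (-(1 - α)) x := by
    funext x
    congr 1
    ring
  have key := up_c h (fam_smooth γ μ) (by rw [hα1]; exact i4) (by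
      simp only [hN]
      exact (i1.const_mul _).add (hint.const_mul _)) (by
      simp only [hD]
      exact (i1.const_mul _).add (i2.const_mul _)) (by
      have e : ∀ x : E n, wt (α - 1) x * (wt (-γ) x - μ) =
          1 * wt (-(γ + 1 - α)) x + (-μ) * wt (-(1 - α)) x := by
        intro x
        have h2 : wt (α - 1) x * wt (-γ) x = wt (-(γ + 1 - α)) x := by
          rw [wt_add]
          congr 1
          ring
        have h3 : wt (α - 1) x = wt (-(1 - α)) x := by
          congr 1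
          ring
        rw [← h2, ← h3]
        ring
      simp only [e]
      rw [lin2 i3 i4, e3, e4]
      have : μ * J n (1 - α) = J n (γ + 1 - α) := div_mul_cancel₀ _ hP.ne'
      linarith)
  simp only [hN, hD] at key
  rw [lin2 i1 i2, lin2 i1 hint, lin2 i3 i4, e1, e2, e3, e4] at key
  have hd := J_diff hγ ha0
  have e5 : 1 * J n a + 1 * (-(2 * μ) * J n (γ + 1 - α) + μ ^ 2 * J n (1 - α)) =
      J n a - J n (γ + 1 - α) ^ 2 / J n (1 - α) := by
    rw [hμ]
    field_simp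
    ring
  rw [e5] at key
  refine key.trans (le_of_eq ?_)
  calc 4 * γ ^ 2 * J n a + -(4 * γ ^ 2) * J n (a + 1) = 4 * γ ^ 2 * (J n a - J n (a + 1)) := by ring
    _ = _ := by rw [hd]; ring

/-- the coordinate functions -/
theorem lb_lin (hn : 1 ≤ n) {α c : ℝ} (h : LBc n α c) (hα : (n : ℝ) < 2 * (-α)) : c ≤ -2 * α := by
  have hα0 := a_pos hα
  have i1 := J_int hα
  have hα' : (n : ℝ) < 2 * (-α + 1) := by linarith
  have i2 := J_int hα'
  have w1 : ∀ x : E n, wt α x = wt (-(-α)) x := fun x => by rw [neg_neg]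
  have w2 : ∀ x : E n, wt (α - 1) x = wt (-(-α + 1)) x := fun x => by congr 1; ring
  have j1 : Integrable fun x : E n => wt α x := by simpa only [w1] using i1
  have j2 : Integrable fun x : E n => wt (α - 1) x := by simpa only [w2] using i2
  have hsq : ∀ (x : E n) (i : Fin n), x i ^ 2 ≤ ‖x‖ ^ 2 := by
    intro x i
    rw [EuclideanSpace.real_norm_sq_eq]
    exact Finset.single_le_sum (f := fun i => x i ^ 2) (fun _ _ => sq_nonneg _) (Finset.mem_univ i)
  have j3 : Integrable fun x : E n => ‖x‖ ^ 2 * wt (α - 1) x := by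
    simp only [sq_wt]
    exact j1.sub j2
  have j4 : ∀ i : Fin n, Integrable fun x : E n => wt (α - 1) x * x i ^ 2 := by
    intro i
    refine j3.mono' ((wt_cont _).mul (((EuclideanSpace.proj i : E n →L[ℝ] ℝ).continuous).pow 2)).aestronglyMeasurable
      (Filter.Eventually.of_forall fun x => ?_)
    rw [Real.norm_of_nonneg (mul_nonneg (wt_pos _ x).le (sq_nonneg _)), mul_comm]
    exact mul_le_mul_of_nonneg_right (hsq x i) (wt_pos _ x).le
  have hd : ∀ (i : Fin n) (x : E n), fderiv ℝ (fun y : E n => y i) x = EuclideanSpace.proj i :=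
    fun i x => (EuclideanSpace.proj i : E n →L[ℝ] ℝ).fderiv
  have hnorm : ∀ i : Fin n, ‖(EuclideanSpace.proj i : E n →L[ℝ] ℝ)‖ ≤ 1 := by
    intro i
    refine ContinuousLinearMap.opNorm_le_bound _ zero_le_one fun x => ?_
    rw [one_mul, ← Real.sqrt_sq (norm_nonneg x), ← Real.sqrt_sq (norm_nonneg _)]
    refine Real.sqrt_le_sqrt ?_
    rw [Real.norm_eq_abs, sq_abs]
    exact hsq x i
  have key : ∀ i : Fin n, c * ∫ x : E n, wt (α - 1) x * x i ^ 2 ≤ J n (-α) := by
    intro i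
    have hj : Integrable fun x : E n => wt α x * ‖fderiv ℝ (fun y : E n => y i) x‖ ^ 2 := by
      simp only [hd]
      exact j1.mul_const _
    have h3 : ∫ x : E n, wt (α - 1) x * x i = 0 := by
      set g : E n → ℝ := fun x => wt (α - 1) x * x i with hg
      have h1 : ∫ x, g x = ∫ x, g (-x) := (integral_neg_eq_self g volume).symm
      have h2 : ∀ x, g (-x) = -g x := by
        intro x
        simp [hg, wt]
      simp only [h2, integral_neg] at h1
      linarith
    have h4 := up_c h (φ := fun y : E n => y i) (EuclideanSpace.proj i : E n →L[ℝ] ℝ).contDiff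
      j2 (j4 i) hj h3
    refine h4.trans ?_
    have h5 : J n (-α) = ∫ x : E n, wt α x := by
      unfold J
      simp only [neg_neg]
    rw [h5]
    refine integral_mono hj j1 fun x => ?_
    show wt α x * ‖fderiv ℝ (fun y : E n => y i) x‖ ^ 2 ≤ wt α x
    rw [hd]
    refine mul_le_of_le_one_right (wt_pos _ x).le ?_
    exact pow_le_one₀ (norm_nonneg _) (hnorm i)
  have hsum : c * ∫ x : E n, ‖x‖ ^ 2 * wt (α - 1) x ≤ n * J n (-α) := by
    have e1 : ∫ x : E n, ‖x‖ ^ 2 * wt (α - 1) x = ∑ i : Fin n, ∫ x : E n, wt (α - 1) x * x i ^ 2 := by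
      rw [← integral_finsetSum _ fun i _ => j4 i]
      refine integral_congr_ae (Filter.Eventually.of_forall fun x => ?_)
      show ‖x‖ ^ 2 * wt (α - 1) x = ∑ i : Fin n, wt (α - 1) x * x i ^ 2
      rw [EuclideanSpace.real_norm_sq_eq, ← Finset.mul_sum, mul_comm]
    rw [e1, Finset.mul_sum]
    refine (Finset.sum_le_sum fun i _ => key i).trans (le_of_eq ?_)
    simp
  have e2 : ∫ x : E n, ‖x‖ ^ 2 * wt (α - 1) x = J n (-α) - J n (-α + 1) := by
    simp only [sq_wt]
    rw [integral_sub j1 j2]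
    simp only [w1, w2]
    rfl
  rw [e2, J_diff hα hα0] at hsum
  have hJ := J_pos hα
  have hn' : (0 : ℝ) < n := by exact_mod_cast hn
  have h6 : c * (n / (2 * (-α)) * J n (-α)) = (c / (2 * (-α))) * (n * J n (-α)) := by
    field_simp
  rw [h6] at hsum
  have h7 : 0 < n * J n (-α) := by positivity
  have h8 : c / (2 * (-α)) ≤ 1 := by
    by_contra hcon
    push Not at hcon
    have := mul_lt_mul_of_pos_right hcon h7
    linarith
  rw [div_le_one (by positivity)] at h8
  linarith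

/-- the threshold from the infinity, no constraint -/
theorem lb_ess_u {α c : ℝ} (h : LBu n α c) (hn : 1 ≤ n) : c ≤ ((n : ℝ) + 2 * α - 2) ^ 2 / 4 := by
  have hn' : (0 : ℝ) < n := by exact_mod_cast hn
  set g0 : ℝ := ((n : ℝ) + 2 * α - 2) / 4 with hg0
  have h1 : Tendsto (fun γ : ℝ => 4 * γ ^ 2 * (n / (2 * (2 * γ + 1 - α)))) (𝓝[>] g0)
      (𝓝 (4 * g0 ^ 2 * (n / (2 * (2 * g0 + 1 - α))))) := by
    have hc : ContinuousAt (fun γ : ℝ => 4 * γ ^ 2 * (n / (2 * (2 * γ + 1 - α)))) g0 := by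
      refine ContinuousAt.mul (by fun_prop) (ContinuousAt.div continuousAt_const (by fun_prop) ?_)
      rw [hg0]
      ring_nf
      exact hn'.ne'
    exact hc.mono_left nhdsWithin_le_nhds
  have h2 : 4 * g0 ^ 2 * (n / (2 * (2 * g0 + 1 - α))) = ((n : ℝ) + 2 * α - 2) ^ 2 / 4 := by
    have : 2 * (2 * g0 + 1 - α) = n := by rw [hg0]; ring
    rw [this, div_self hn'.ne', hg0]
    ring
  rw [h2] at h1
  refine ge_of_tendsto h1 ?_
  filter_upwards [self_mem_nhdsWithin] with γ hγ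
  have hγ' : g0 < γ := hγ
  refine lb_u h ?_
  rw [hg0] at hγ'
  linarith

/-- the threshold from the infinity, with constraint -/
theorem lb_ess_c {α c : ℝ} (h : LBc n α c) (hn : 1 ≤ n) (hα : (n : ℝ) < 2 * (1 - α)) :
    c ≤ ((n : ℝ) + 2 * α - 2) ^ 2 / 4 := by
  have hn' : (0 : ℝ) < n := by exact_mod_cast hn
  set g0 : ℝ := ((n : ℝ) + 2 * α - 2) / 4 with hg0
  have hg0neg : g0 < 0 := by rw [hg0]; linarith
  have h1 : Tendsto (fun γ : ℝ => 4 * γ ^ 2 * (n / (2 * (2 * γ + 1 - α)))) (𝓝[>] g0)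
      (𝓝 (4 * g0 ^ 2 * (n / (2 * (2 * g0 + 1 - α))))) := by
    have hc : ContinuousAt (fun γ : ℝ => 4 * γ ^ 2 * (n / (2 * (2 * γ + 1 - α)))) g0 := by
      refine ContinuousAt.mul (by fun_prop) (ContinuousAt.div continuousAt_const (by fun_prop) ?_)
      rw [hg0]
      ring_nf
      exact hn'.ne'
    exact hc.mono_left nhdsWithin_le_nhds
  have h2 : 4 * g0 ^ 2 * (n / (2 * (2 * g0 + 1 - α))) = ((n : ℝ) + 2 * α - 2) ^ 2 / 4 := by
    have : 2 * (2 * g0 + 1 - α) = n := by rw [hg0]; ring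
    rw [this, div_self hn'.ne', hg0]
    ring
  rw [h2] at h1
  -- bounds for the moments
  have hα2 : (n : ℝ) < 2 * (g0 + 1 - α) := by rw [hg0]; linarith
  set K := J n (g0 + 1 - α) with hK
  set L := J n ((n : ℝ) / 2 + 2) with hL
  have hKpos : 0 < K := J_pos hα2
  have hLpos : 0 < L := J_pos (by linarith)
  have hPpos := J_pos hα
  have h3 : Tendsto (fun γ : ℝ => c * (1 - (2 * (2 * γ + 1 - α) - n) / (n * L) * (K ^ 2 / J n (1 - α)) ))
      (𝓝[>] g0) (𝓝 (c * (1 - 0))) := by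
    have hc : ContinuousAt (fun γ : ℝ => c * (1 - (2 * (2 * γ + 1 - α) - n) / (n * L) * (K ^ 2 / J n (1 - α)) )) g0 := by
      fun_prop
    have := hc.mono_left (nhdsWithin_le_nhds (s := Ioi g0))
    unfold ContinuousAt at hc
    have e : c * (1 - (2 * (2 * g0 + 1 - α) - n) / (n * L) * (K ^ 2 / J n (1 - α)) ) = c * (1 - 0) := by
      have : 2 * (2 * g0 + 1 - α) = n := by rw [hg0]; ring
      rw [this]
      simp
    rw [← e]
    exact this
  rcases le_or_gt c 0 with hc0 | hc0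
  · exact hc0.trans (by positivity)
  rw [sub_zero, mul_one] at h3
  refine le_of_tendsto_of_tendsto h3 h1 ?_
  have hev : ∀ᶠ γ in 𝓝[>] g0, γ < g0 + 1 / 2 ∧ γ < 0 := by
    have a1 : ∀ᶠ γ in 𝓝 g0, γ < g0 + 1 / 2 := eventually_lt_nhds (by linarith)
    have a2 : ∀ᶠ γ in 𝓝 g0, γ < 0 := eventually_lt_nhds hg0neg
    exact nhdsWithin_le_nhds (a1.and a2)
  filter_upwards [self_mem_nhdsWithin, hev] with γ hγ hγ2
  have hγ' : g0 < γ := hγ
  have ha : (n : ℝ) < 2 * (2 * γ + 1 - α) := by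
    rw [hg0] at hγ'
    linarith
  have ha0 := a_pos ha
  have key := lb_c h hα ha
  set a := 2 * γ + 1 - α with hadef
  have hJ := J_pos ha
  have hrec := J_rec ha
  have ha1 : a + 1 ≤ (n : ℝ) / 2 + 2 := by
    have := hγ2.1
    rw [hg0] at this
    rw [hadef]
    linarith
  have hJ1 : L ≤ J n (a + 1) := J_anti (by linarith) ha1
  have hKb : J n (γ + 1 - α) ≤ K := J_anti hα2 (by linarith)
  have hKb0 : 0 < J n (γ + 1 - α) := J_pos (by linarith)
  -- J a is large
  have hbig : n * L ≤ (2 * a - n) * J n a := by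
    rw [← hrec]
    have : (n : ℝ) ≤ 2 * a := ha.le
    exact mul_le_mul this hJ1 hLpos.le (by linarith)
  have h5 : J n (γ + 1 - α) ^ 2 / J n (1 - α) ≤
      (2 * a - n) / (n * L) * (K ^ 2 / J n (1 - α)) * J n a := by
    have h6 : J n (γ + 1 - α) ^ 2 / J n (1 - α) ≤ K ^ 2 / J n (1 - α) := by
      gcongr
    have h7 : 1 ≤ (2 * a - n) / (n * L) * J n a := by
      rw [div_mul_eq_mul_div, le_div_iff₀ (by positivity)]
      linarith
    have h8 : 0 ≤ K ^ 2 / J n (1 - α) := by positivity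
    have := mul_le_mul_of_nonneg_left h7 h8
    calc _ ≤ K ^ 2 / J n (1 - α) := h6
      _ ≤ K ^ 2 / J n (1 - α) * ((2 * a - n) / (n * L) * J n a) := by linarith
      _ = _ := by ring
  have h9 : c * (1 - (2 * a - n) / (n * L) * (K ^ 2 / J n (1 - α))) * J n a ≤
      4 * γ ^ 2 * (n / (2 * a)) * J n a := by
    refine le_trans ?_ key
    have := mul_le_mul_of_nonneg_left h5 hc0.le
    nlinarith
  exact le_of_mul_le_mul_right h9 hJ

end Pool.Agent.T6.H44.Hardy
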